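import Mathlib

set_option autoImplicit false

/-!
The layout of the counter on the tape, and the arithmetic of its digits.
-/

namespace Pool.Agent.H720.CT

/-- The kinds of digits: first digit of a block, first digit of a row (but not of a block), other. -/
inductive Kd : Type
  | mid : Kd
  | row : Kd
  | blk : Kd

/-- The work alphabet: letters, the cell with the kind of the next digit, an idle cell, and the
cell with the value of a digit. -/
inductive Wk : Type
  | raw (x : Bool) : Wk
  | a (k : Kd) : Wk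
  | b : Wk
  | d (x : Bool) : Wk

def kd (m n : ℕ) : Kd := if n % (m * m) = 0 then .blk else if n % m = 0 then .row else .mid

/-- The content of the cell with index `y`: three cells for every digit, rows of `m` digits,
blocks of `m` rows, and the block `k` holds the binary representation of `k`. -/
def lay (m y : ℕ) : Wk :=
  if y % 3 = 0 then .a (kd m (y / 3))
  else if y % 3 = 1 then .b
  else .d ((y / 3 / (m * m)).testBit (y / 3 % (m * m)))

/-- The row of a cell. -/
def ri (m y : ℕ) : ℕ := y / 3 % (m * m) / m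

/-- The column of a cell. -/
def ci (m y : ℕ) : ℕ := y / 3 % m

/-- The number of digits which precede the position behind the cell `y` in its row. -/
def rm3 (m y : ℕ) : ℕ := ci m y + (if y % 3 = 2 then 1 else 0)

theorem pred_div_mod {m n : ℕ} (hm : 1 ≤ m) (hn : 1 ≤ n) :
    (n % m ≠ 0 → (n - 1) / m = n / m ∧ (n - 1) % m + 1 = n % m) ∧
    (n % m = 0 → (n - 1) / m + 1 = n / m ∧ (n - 1) % m + 1 = m) := by
  have h1 := Nat.div_add_mod n m
  have h2 := Nat.mod_lt n (show 0 < m by omega)
  generalize n / m = a at *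
  generalize n % m = b at *
  subst h1
  constructor
  · intro hb
    have h3 : m * a + b - 1 = m * a + (b - 1) := by omega
    rw [h3, Nat.mul_add_div (by omega), Nat.mul_add_mod, Nat.div_eq_of_lt (by omega),
      Nat.mod_eq_of_lt (by omega)]
    omega
  · intro hb
    subst hb
    have ha : a ≠ 0 := by
      rintro rfl
      omega
    obtain ⟨a, rfl⟩ : ∃ a', a = a' + 1 := ⟨a - 1, by omega⟩
    have h3 : m * (a + 1) + 0 - 1 = m * a + (m - 1) := by
      rw [Nat.mul_add]; omega
    rw [h3, Nat.mul_add_div (by omega), Nat.mul_add_mod, Nat.div_eq_of_lt (by omega),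
      Nat.mod_eq_of_lt (by omega)]
    omega

theorem lay_zero (m : ℕ) : lay m 0 = .a .blk := by
  unfold lay kd
  simp

/-- Going one cell to the left. -/
theorem left_cases {m : ℕ} (hm : 1 ≤ m) (y : ℕ) (hy : 1 ≤ y) :
    (lay m y = .b ∧ y % 3 = 1 ∧ (y - 1) % 3 = 0 ∧ ri m (y - 1) = ri m y ∧ ci m (y - 1) = ci m y) ∨
    (lay m y = .d ((y / 3 / (m * m)).testBit (y / 3 % (m * m))) ∧ y % 3 = 2 ∧ (y - 1) % 3 = 1 ∧
      ri m (y - 1) = ri m y ∧ ci m (y - 1) = ci m y) ∨
    (lay m y = .a .mid ∧ y % 3 = 0 ∧ (y - 1) % 3 = 2 ∧ ri m (y - 1) = ri m y ∧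
      ci m (y - 1) + 1 = ci m y) ∨
    (lay m y = .a .row ∧ y % 3 = 0 ∧ (y - 1) % 3 = 2 ∧ ri m (y - 1) + 1 = ri m y ∧
      ci m y = 0 ∧ ci m (y - 1) + 1 = m ∧ y / 3 % (m * m) ≠ 0) ∨
    (lay m y = .a .blk ∧ y % 3 = 0 ∧ (y - 1) % 3 = 2 ∧ ri m y = 0 ∧ ci m y = 0 ∧
      ci m (y - 1) + 1 = m ∧ y / 3 % (m * m) = 0) := by
  have hr : y % 3 = 0 ∨ y % 3 = 1 ∨ y % 3 = 2 := by omega
  rcases hr with hr | hr | hr
  · have h1 : (y - 1) % 3 = 2 := by omega
    have h2 : (y - 1) / 3 = y / 3 - 1 := by omega
    have h3 : 1 ≤ y / 3 := by omega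
    have hlay : lay m y = .a (kd m (y / 3)) := by unfold lay; rw [if_pos hr]
    have hc := pred_div_mod (m := m) (n := y / 3) hm h3
    have hms : 1 ≤ m * m := Nat.mul_pos hm hm
    have hC := pred_div_mod (m := m * m) (n := y / 3) hms h3
    unfold ri ci
    rw [h2, hlay]
    generalize y / 3 = q at *
    have hdv : q % (m * m) % m = q % m := Nat.mod_mod_of_dvd q (Dvd.intro m rfl)
    right; right
    by_cases hb : q % (m * m) = 0
    · right; right
      have hq : q % m = 0 := by rw [← hdv, hb, Nat.zero_mod]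
      have := (hc.2 hq).2
      refine ⟨by unfold kd; rw [if_pos hb], hr, h1, by rw [hb, Nat.zero_div], hq, this, hb⟩
    · have h4 : (q - 1) % (m * m) = q % (m * m) - 1 := by
        have := (hC.1 hb).2
        omega
      have hD := pred_div_mod (m := m) (n := q % (m * m)) hm (by omega)
      rw [h4]
      by_cases hq : q % m = 0
      · right; left
        refine ⟨by unfold kd; rw [if_neg hb, if_pos hq], hr, h1, ?_, hq, (hc.2 hq).2, hb⟩
        exact (hD.2 (by rw [hdv]; exact hq)).1
      · left
        refine ⟨by unfold kd; rw [if_neg hb, if_neg hq], hr, h1, ?_, (hc.1 hq).2⟩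
        exact (hD.1 (by rw [hdv]; exact hq)).1
  · left
    have h2 : (y - 1) / 3 = y / 3 := by omega
    refine ⟨by unfold lay; rw [if_neg (by omega), if_pos hr], hr, by omega, ?_, ?_⟩
    · unfold ri; rw [h2]
    · unfold ci; rw [h2]
  · right; left
    have h2 : (y - 1) / 3 = y / 3 := by omega
    refine ⟨by unfold lay; rw [if_neg (by omega), if_neg (by omega)], hr, by omega, ?_, ?_⟩
    · unfold ri; rw [h2]
    · unfold ci; rw [h2]

/-- The carry into the digit `D` when the number `k` is reached. -/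
def cr (k D : ℕ) : Bool := decide (k ≠ 0 ∧ k % 2 ^ D = 0)

theorem testBit_succ' (k D : ℕ) :
    (k + 1).testBit D = xor (k.testBit D) (decide ((k + 1) % 2 ^ D = 0)) := by
  induction D generalizing k with
  | zero =>
    simp only [pow_zero, Nat.mod_one, Nat.testBit_zero, decide_true, Bool.xor_true]
    rcases Nat.mod_two_eq_zero_or_one k with h | h
    · rw [h, Nat.add_mod, h]; simp
    · rw [h, Nat.add_mod, h]; simp
  | succ D ih =>
    rw [Nat.testBit_succ, Nat.testBit_succ]
    have hp : 2 ^ (D + 1) = 2 * 2 ^ D := by rw [pow_succ, Nat.mul_comm]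
    rcases Nat.mod_two_eq_zero_or_one k with h | h
    · have h1 : (k + 1) / 2 = k / 2 := by omega
      have h2 : ¬ (k + 1) % 2 ^ (D + 1) = 0 := by
        intro h3
        have h4 : 2 ∣ k + 1 := (Dvd.intro _ hp.symm).trans (Nat.dvd_of_mod_eq_zero h3)
        omega
      rw [h1, decide_eq_false h2, Bool.xor_false]
    · have h1 : (k + 1) / 2 = k / 2 + 1 := by omega
      have h2 : (k + 1) % 2 ^ (D + 1) = 0 ↔ (k / 2 + 1) % 2 ^ D = 0 := by
        rw [← h1, hp, ← Nat.dvd_iff_mod_eq_zero, ← Nat.dvd_iff_mod_eq_zero]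
        have h3 : k + 1 = 2 * ((k + 1) / 2) := by omega
        constructor
        · intro h4
          rw [h3] at h4
          exact Nat.dvd_of_mul_dvd_mul_left (by omega) h4
        · intro h4
          rw [h3]
          exact Nat.mul_dvd_mul_left 2 h4
      rw [h1, ih]
      congr 1
      exact decide_eq_decide.2 h2.symm

theorem cr_succ (k D : ℕ) : cr (k + 1) (D + 1) = (cr (k + 1) D && k.testBit D) := by
  have h1 : cr (k + 1) (D + 1) = decide ((k + 1) % 2 ^ (D + 1) = 0) := by
    unfold cr
    exact decide_eq_decide.2 ⟨fun h => h.2, fun h => ⟨by omega, h⟩⟩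
  have h2 : cr (k + 1) D = decide ((k + 1) % 2 ^ D = 0) := by
    unfold cr
    exact decide_eq_decide.2 ⟨fun h => h.2, fun h => ⟨by omega, h⟩⟩
  rw [h1, h2]
  have hp : 2 ^ (D + 1) = 2 ^ D * 2 := pow_succ 2 D
  have h3 := testBit_succ' k D
  by_cases h4 : (k + 1) % 2 ^ D = 0
  · rw [decide_eq_true h4, Bool.true_and]
    rw [decide_eq_true h4, Bool.xor_true] at h3
    have h5 : (k + 1) % 2 ^ (D + 1) = 0 ↔ (k + 1).testBit D = false := by
      rw [Nat.testBit_eq_decide_div_mod_eq, decide_eq_false_iff_not, ← Nat.dvd_iff_mod_eq_zero, hp]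
      have h6 : k + 1 = 2 ^ D * ((k + 1) / 2 ^ D) := by
        have := Nat.div_add_mod (k + 1) (2 ^ D)
        omega
      have hpos : 0 < 2 ^ D := Nat.two_pow_pos D
      constructor
      · intro h7 h8
        rw [h6] at h7
        have h9 := Nat.dvd_of_mul_dvd_mul_left hpos h7
        omega
      · intro h7
        rw [h6]
        apply Nat.mul_dvd_mul_left
        omega
    rw [h3] at h5
    cases hb : k.testBit D
    · rw [hb] at h5
      simp only [Bool.not_false, Bool.true_eq_false, iff_false] at h5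
      exact decide_eq_false h5
    · rw [hb] at h5
      simp only [Bool.not_true, iff_true] at h5
      exact decide_eq_true h5
  · rw [decide_eq_false h4, Bool.false_and, decide_eq_false_iff_not]
    intro h5
    apply h4
    rw [← Nat.dvd_iff_mod_eq_zero] at h5 ⊢
    exact (Dvd.intro 2 hp.symm).trans h5

theorem digit_succ (k D : ℕ) : (k + 1).testBit D = xor (k.testBit D) (cr (k + 1) D) := by
  rw [testBit_succ']
  congr 1
  unfold cr
  exact decide_eq_decide.2 ⟨fun h => ⟨by omega, h⟩, fun h => h.2⟩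

theorem cr_zero (k : ℕ) : cr (k + 1) 0 = true := by
  unfold cr
  simp [Nat.mod_one]

theorem cr_full {k s : ℕ} (h : k ≤ 2 ^ s) : cr k s = true ↔ k = 2 ^ s := by
  unfold cr
  rw [decide_eq_true_iff]
  constructor
  · rintro ⟨h1, h2⟩
    by_contra h3
    rw [Nat.mod_eq_of_lt (by omega)] at h2
    exact h1 h2
  · rintro rfl
    have := Nat.two_pow_pos s
    exact ⟨by omega, Nat.mod_self _⟩

end Pool.Agent.H720.CT
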