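import Mathlib
import Pool.Agent.H720.UV.Ans
import Pool.Agent.H720.CT.Ar

set_option autoImplicit false

/-!
A small unambiguous self-verifying 1-limited automaton which counts to `3 m² (2 ^ (m²) + 1)`.
-/

namespace Pool.Agent.H720.CT

open Relation Pool.Agent.H630R2.LA Pool.Agent.H720.UV

/-- The modes: counting from the first cell, or from a marked cell with the letter `x`. -/
inductive Md : Type
  | U : Md
  | M (x : Bool) : Md

/-- The states. -/
inductive St (m : ℕ) : Type
  | q0 : St m
  | V : St m
  | ac (x : Bool) : St m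
  | arr (μ : Md) (f c : Bool) (k : Kd) : St m
  | fb (μ : Md) : St m
  | fd (μ : Md) : St m
  | ta (μ : Md) (c : Bool) (i : Fin (m + 1)) : St m
  | tb (μ : Md) (c : Bool) (i : Fin (m + 1)) : St m
  | tc (μ : Md) (c : Bool) (i : Fin (m + 1)) : St m
  | td (μ : Md) (c : Bool) (i : Fin (m + 1)) : St m
  | te (μ : Md) (c x : Bool) (i : Fin (m + 1)) : St m
  | ua (μ : Md) (c x : Bool) (i : Fin (m + 1)) : St m
  | ub (μ : Md) (c x : Bool) : St m
  | va (μ : Md) (f c : Bool) (i : Fin (m + 1)) : St m
  | vb (μ : Md) (f c : Bool) (i : Fin (m + 1)) : St m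
  | wr (μ : Md) : St m

def fn (m i : ℕ) : Fin (m + 1) := ⟨min i m, by omega⟩

def inc {m : ℕ} (i : Fin (m + 1)) : Fin (m + 1) := fn m (i.val + 1)

def dec {m : ℕ} (i : Fin (m + 1)) : Fin (m + 1) := fn m (i.val - 1)

theorem fn_val {m i : ℕ} (h : i ≤ m) : (fn m i).val = i := by
  unfold fn
  simp only
  omega

theorem inc_fn {m i : ℕ} : inc (fn m i) = fn m (i + 1) := by
  unfold inc fn
  apply Fin.ext
  simp only
  omega

theorem dec_fn {m i : ℕ} (h : i ≤ m) : dec (fn m i) = fn m (i - 1) := by
  unfold dec fn
  apply Fin.ext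
  simp only
  omega

variable {m : ℕ}

/-- The state behind a complete row, when the block has `i` rows. -/
def fin (μ : Md) (f c : Bool) (i : Fin (m + 1)) : St m :=
  if i.val = m then
    (if f = true then .arr μ false true .blk else if c = true then .wr μ
      else .arr μ false true .blk)
  else .arr μ f c .row

def rej (m : ℕ) : Md → List (St m × Wk × Bool)
  | .U => [(.ac false, .b, true)]
  | .M _ => []

def st1 (μ : Md) (c : Bool) : Kd → St m × Wk × Bool
  | .mid => (.ta μ c (fn m 0), .a .mid, false)
  | .row => (.ta μ c (fn m 1), .a .row, false)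
  | .blk => (.tb μ c (fn m 0), .a .blk, false)

def ntr : St m → Sym Wk → List (St m × Wk × Bool)
  | .q0 => fun σ => match σ with
    | .sym (.raw x) => [(.fb .U, .a .blk, true), (.fb (.M x), .a .blk, true), (.V, .b, true)]
    | .rm => [(.ac false, .b, true)]
    | _ => []
  | .V => fun σ => match σ with
    | .sym (.raw x) => [(.fb (.M x), .a .blk, true), (.V, .b, true)]
    | _ => []
  | .ac _ => fun _ => []
  | .arr μ f c k => fun σ => match σ with
    | .sym (.raw _) => if f = true then [(.fb μ, .a k, true)] else [st1 μ c k]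
    | .sym w => [(.arr μ f c k, w, true)]
    | .rm => rej m μ
    | .lm => []
  | .fb μ => fun σ => match σ with
    | .sym (.raw _) => [(.fd μ, .b, true)]
    | .rm => rej m μ
    | _ => []
  | .fd μ => fun σ => match σ with
    | .sym (.raw _) => [(.va μ true false (fn m 1), .d false, false)]
    | .rm => rej m μ
    | _ => []
  | .ta μ c i => fun σ => match σ with
    | .sym (.a .row) => [(.ta μ c (inc i), .a .row, false)]
    | .sym (.a .blk) => [(.tb μ c i, .a .blk, false)]
    | .sym w => [(.ta μ c i, w, false)]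
    | _ => []
  | .tb μ c i => fun σ => match σ with
    | .sym (.a .blk) => if i.val = 0 then [(.td μ c (fn m 0), .a .blk, true)]
        else [(.tc μ c i, .a .blk, true)]
    | .sym w => [(.tb μ c i, w, false)]
    | _ => []
  | .tc μ c i => fun σ => match σ with
    | .sym (.a .row) => if i.val = 1 then [(.td μ c (fn m 0), .a .row, true)]
        else [(.tc μ c (dec i), .a .row, true)]
    | .sym w => [(.tc μ c i, w, true)]
    | _ => []
  | .td μ c i => fun σ => match σ with
    | .sym (.a .mid) => [(.td μ c i, .a .mid, true)]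
    | .sym .b => [(.td μ c i, .b, true)]
    | .sym (.d x) => [(.te μ c x i, .d x, true), (.td μ c (inc i), .d x, true)]
    | _ => []
  | .te μ c x i => fun σ => match σ with
    | .sym (.raw _) => [(.ua μ c x i, .b, false)]
    | .sym w => [(.te μ c x i, w, true)]
    | .rm => match μ with
      | .U => [(.ua .U c x i, .b, false)]
      | .M _ => []
    | .lm => []
  | .ua μ c x i => fun σ => match σ with
    | .sym (.d y) => if i.val = 0 then [] else [(.ua μ c x (dec i), .d y, false)]
    | .sym (.a .mid) => [(.ua μ c x i, .a .mid, false)]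
    | .sym .b => [(.ua μ c x i, .b, false)]
    | .sym (.a k) => if i.val = 0 then [(.ub μ c x, .a k, true)] else []
    | _ => []
  | .ub μ c x => fun σ => match σ with
    | .sym (.raw _) => [(.va μ false (c && x) (fn m 1), .d (xor x c), false)]
    | .sym w => [(.ub μ c x, w, true)]
    | .rm => rej m μ
    | .lm => []
  | .va μ f c i => fun σ => match σ with
    | .sym (.d x) => [(.va μ f c (inc i), .d x, false)]
    | .sym (.a .row) => if i.val = m then [(.vb μ f c (fn m 1), .a .row, false)]
        else [(.arr μ f c .mid, .a .row, true)]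
    | .sym (.a .blk) => if i.val = m then [(fin μ f c (fn m 1), .a .blk, true)]
        else [(.arr μ f c .mid, .a .blk, true)]
    | .sym w => [(.va μ f c i, w, false)]
    | _ => []
  | .vb μ f c i => fun σ => match σ with
    | .sym (.a .row) => [(.vb μ f c (inc i), .a .row, false)]
    | .sym (.a .blk) => [(fin μ f c (inc i), .a .blk, true)]
    | .sym w => [(.vb μ f c i, w, false)]
    | _ => []
  | .wr μ => fun σ => match σ with
    | .sym (.raw _) => []
    | .sym w => [(.wr μ, w, true)]
    | .rm => match μ with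
      | .U => []
      | .M x => [(.ac x, .b, true)]
    | .lm => []

/-! ### Finiteness -/

def kcode : Kd → Fin 3
  | .mid => 0
  | .row => 1
  | .blk => 2

theorem kcode_inj : Function.Injective kcode := by
  intro a b h
  cases a <;> cases b <;> first | rfl | (exact absurd h (by decide))

def mcode : Md → Option Bool
  | .U => none
  | .M x => some x

theorem mcode_inj : Function.Injective mcode := by
  intro a b h
  cases a <;> cases b <;> first | rfl | (cases h; try rfl)

def wcode : Wk → Bool ⊕ Fin 3 ⊕ Unit ⊕ Bool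
  | .raw x => .inl x
  | .a k => .inr (.inl (kcode k))
  | .b => .inr (.inr (.inl ()))
  | .d x => .inr (.inr (.inr x))

theorem wcode_inj : Function.Injective wcode := by
  intro a b h
  cases a <;> cases b <;> simp only [wcode, Sum.inl.injEq, Sum.inr.injEq, reduceCtorEq] at h
  · rw [h]
  · rw [kcode_inj h]
  · rfl
  · rw [h]

instance : Finite Wk := Finite.of_injective _ wcode_inj

theorem card_Wk : Nat.card Wk ≤ 8 := by
  have h := Nat.card_le_card_of_injective _ wcode_inj
  rw [Nat.card_sum, Nat.card_sum, Nat.card_sum] at h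
  simpa using h

abbrev SC (m : ℕ) : Type := Bool ⊕ Bool ⊕ (Option Bool × Bool × Bool × Fin 3) ⊕
  (Fin 3 × Option Bool) ⊕ (Option Bool × Bool × Bool) ⊕
  (Fin 4 × Option Bool × Bool × Fin (m + 1)) ⊕ (Fin 4 × Option Bool × Bool × Bool × Fin (m + 1))

def scode : St m → SC m
  | .q0 => .inl true
  | .V => .inl false
  | .ac x => .inr (.inl x)
  | .arr μ f c k => .inr (.inr (.inl (mcode μ, f, c, kcode k)))
  | .fb μ => .inr (.inr (.inr (.inl (0, mcode μ))))
  | .fd μ => .inr (.inr (.inr (.inl (1, mcode μ))))
  | .wr μ => .inr (.inr (.inr (.inl (2, mcode μ))))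
  | .ub μ c x => .inr (.inr (.inr (.inr (.inl (mcode μ, c, x)))))
  | .ta μ c i => .inr (.inr (.inr (.inr (.inr (.inl (0, mcode μ, c, i))))))
  | .tb μ c i => .inr (.inr (.inr (.inr (.inr (.inl (1, mcode μ, c, i))))))
  | .tc μ c i => .inr (.inr (.inr (.inr (.inr (.inl (2, mcode μ, c, i))))))
  | .td μ c i => .inr (.inr (.inr (.inr (.inr (.inl (3, mcode μ, c, i))))))
  | .te μ c x i => .inr (.inr (.inr (.inr (.inr (.inr (0, mcode μ, c, x, i))))))
  | .ua μ c x i => .inr (.inr (.inr (.inr (.inr (.inr (1, mcode μ, c, x, i))))))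
  | .va μ c x i => .inr (.inr (.inr (.inr (.inr (.inr (2, mcode μ, c, x, i))))))
  | .vb μ c x i => .inr (.inr (.inr (.inr (.inr (.inr (3, mcode μ, c, x, i))))))

theorem scode_inj : Function.Injective (scode (m := m)) := by
  intro a b h
  cases a <;> cases b <;>
    simp only [scode, Sum.inl.injEq, Sum.inr.injEq, reduceCtorEq, Prod.mk.injEq, mcode_inj.eq_iff,
      kcode_inj.eq_iff, Fin.reduceEq, false_and, true_and] at h
  all_goals first
    | rfl
    | exact absurd h (by decide)
    | (obtain ⟨rfl, rfl, rfl, rfl⟩ := h; rfl)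
    | (obtain ⟨rfl, rfl, rfl⟩ := h; rfl)
    | (subst h; rfl)

instance : Finite (St m) := Finite.of_injective _ scode_inj

theorem card_St : Nat.card (St m) ≤ 72 * (m + 1) + 61 := by
  have h := Nat.card_le_card_of_injective _ (scode_inj (m := m))
  have h2 : Nat.card (SC m) = 72 * (m + 1) + 61 := by
    unfold SC
    simp only [Nat.card_eq_fintype_card, Fintype.card_sum, Fintype.card_prod, Fintype.card_bool,
      Fintype.card_fin, Fintype.card_option]
    ring
  omega

/-- The machine. -/
def Mc (m : ℕ) : LimAut Bool where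
  Q := St m
  W := Wk
  finQ := inferInstance
  finW := inferInstance
  inp := .raw
  inp_inj := by intro a b h; injection h
  δ := fun q σ => {t | t ∈ ntr q σ}
  q0 := .q0
  F := {.ac true}

theorem ntr_length (s : St m) (σ : Sym Wk) : (ntr s σ).length ≤ 3 := by
  have hr : ∀ μ, (rej m μ).length ≤ 1 := by
    intro μ
    cases μ <;> simp [rej]
  cases s <;> rcases σ with _ | _ | ⟨_ | ⟨_ | _ | _⟩ | _ | _⟩ <;> simp only [ntr] <;>
    (try split_ifs) <;> (try split) <;> simp <;> (try exact (hr _).trans (by omega))

end Pool.Agent.H720.CT
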