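import Mathlib
import Pool.Agent.H720.CT.Mach
import Pool.Agent.H720.UV.Exc

set_option autoImplicit false

/-!
Moving phases.
-/

namespace Pool.Agent.H720.CT

open Relation Pool.Agent.H630R2.LA Pool.Agent.H720.UV

variable {m : ℕ} {strict : Prop} {n : ℕ}

/-- A configuration. -/
def cf (s : St m) (p : ℕ) (τ : ℕ → Sym Wk) (S : Set ℕ) : Cfg (Mc m) := ⟨s, p, τ, S⟩

/-- The cell in which the counter starts. -/
noncomputable def org (τ : ℕ → Sym Wk) : ℕ := sInf {x | 1 ≤ x ∧ τ x = .sym (.a .blk)}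

/-- Configurations in which something unexpected would be written. -/
def Bad (m n : ℕ) (c : Cfg (Mc m)) : Prop := c.pos ≤ n ∧ c.pos ∉ c.seen ∧
  c.state ≠ St.q0 ∧ c.state ≠ St.V ∧
  ∃ t ∈ ntr c.state (c.tape c.pos), t.2.1 ≠ lay m (c.pos - org c.tape)

/-- Configurations behind the right end-marker with an answer. -/
def HB (m n : ℕ) (c : Cfg (Mc m)) : Prop := c.pos = n + 2 ∧ ∃ b, c.state = St.ac b

/-- Configurations behind the right end-marker with an answer, or bad configurations. -/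
def HA (m n : ℕ) (c : Cfg (Mc m)) : Prop := HB m n c ∨ Bad m n c

/-- The steps. -/
abbrev RR (m : ℕ) (strict : Prop) (n : ℕ) : Cfg (Mc m) → Cfg (Mc m) → Prop := Step strict n

/-- Determined steps. -/
abbrev DT (m : ℕ) (strict : Prop) (n : ℕ) : Cfg (Mc m) → Cfg (Mc m) → Prop :=
  Dt (RR m strict n) (HA m n)

abbrev DD (m : ℕ) (strict : Prop) (n : ℕ) : Cfg (Mc m) → Prop := Dead (RR m strict n) (HA m n)

theorem not_HA {s : St m} {p : ℕ} {τ : ℕ → Sym Wk} {S : Set ℕ} (hp : p ≤ n + 1)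
    (h : p ≤ n → p ∉ S → s ≠ .q0 → s ≠ .V → ∀ t ∈ ntr s (τ p), t.2.1 = lay m (p - org τ)) :
    ¬ HA m n (cf s p τ S) := by
  rintro (⟨h1, _⟩ | ⟨h1, h2, h3, h4, t, h5, h6⟩)
  · have : p = n + 2 := h1
    omega
  · exact h6 (h h1 h2 h3 h4 t h5)

theorem not_HA_vis {s : St m} {p : ℕ} {τ : ℕ → Sym Wk} {S : Set ℕ} (hp : p ≤ n + 1)
    (h : p ∈ S) : ¬ HA m n (cf s p τ S) :=
  not_HA hp (fun _ h' => absurd h h')

theorem not_HA_nil {s : St m} {p : ℕ} {τ : ℕ → Sym Wk} {S : Set ℕ} (hp : p ≤ n + 1)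
    (h : ntr s (τ p) = []) : ¬ HA m n (cf s p τ S) :=
  not_HA hp (fun _ _ _ _ t ht => by rw [h] at ht; exact absurd ht List.not_mem_nil)

theorem not_HA_zero {s : St m} {p : ℕ} {τ : ℕ → Sym Wk} {S : Set ℕ} (hp : p ≤ n + 1)
    (h : s = .q0 ∨ s = .V) : ¬ HA m n (cf s p τ S) :=
  not_HA hp (fun _ _ h1 h2 => by rcases h with h | h; exact absurd h h1; exact absurd h h2)

theorem step_cf {s : St m} {p : ℕ} {τ : ℕ → Sym Wk} {S : Set ℕ} {c' : Cfg (Mc m)} :
    RR m strict n (cf s p τ S) c' ↔ p ≤ n + 1 ∧ ∃ (q : St m) (b : Wk) (d : Bool),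
      (q, b, d) ∈ ntr s (τ p) ∧ (strict → p ∈ S → (τ p).rewrite b = τ p) ∧
      (d = false → 1 ≤ p) ∧ c' = nx (cf s p τ S) q b d := step_iff

theorem nx_vis {s : St m} {p : ℕ} {τ : ℕ → Sym Wk} {S : Set ℕ} (hS : p ∈ S) (q : St m) (b : Wk)
    (d : Bool) : nx (cf s p τ S) q b d = cf q (if d = true then p + 1 else p - 1) τ S := by
  classical
  unfold nx cf
  simp only
  rw [if_pos hS, Set.insert_eq_of_mem hS]

theorem nx_new {s : St m} {p : ℕ} {τ : ℕ → Sym Wk} {S : Set ℕ} (hS : p ∉ S) (q : St m) (b : Wk)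
    (d : Bool) : nx (cf s p τ S) q b d = cf q (if d = true then p + 1 else p - 1)
      (Function.update τ p ((τ p).rewrite b)) (insert p S) := by
  classical
  unfold nx cf
  simp only
  rw [if_neg hS]
  congr 1

/-- A step on a visited cell. -/
theorem dt_vis {s q : St m} {p : ℕ} {τ : ℕ → Sym Wk} {S : Set ℕ} {b : Wk} {d : Bool}
    (hp : p ≤ n + 1) (hp1 : 1 ≤ p) (hS : p ∈ S) (h : ntr s (τ p) = [(q, b, d)])
    (hb : (τ p).rewrite b = τ p) :
    DT m strict n (cf s p τ S) (cf q (if d = true then p + 1 else p - 1) τ S) := by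
  refine Dt.single (not_HA_vis hp hS) ?_ ?_
  · rw [step_cf]
    refine ⟨hp, q, b, d, by rw [h]; exact List.mem_singleton.2 rfl, fun _ _ => hb, fun _ => hp1, ?_⟩
    rw [nx_vis hS]
  · intro z hz
    rw [step_cf] at hz
    obtain ⟨_, q', b', d', h1, _, _, rfl⟩ := hz
    rw [h, List.mem_singleton] at h1
    obtain ⟨rfl, h2⟩ := Prod.mk.inj h1
    obtain ⟨rfl, rfl⟩ := Prod.mk.inj h2
    rw [nx_vis hS]

/-- A step on a new cell. -/
theorem dt_new {s q : St m} {p : ℕ} {τ : ℕ → Sym Wk} {S : Set ℕ} {b : Wk} {d : Bool}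
    (hp : p ≤ n + 1) (hp1 : 1 ≤ p) (hS : p ∉ S) (h : ntr s (τ p) = [(q, b, d)])
    (hw : p ≤ n → s ≠ .q0 → b = lay m (p - org τ)) :
    DT m strict n (cf s p τ S) (cf q (if d = true then p + 1 else p - 1)
      (Function.update τ p ((τ p).rewrite b)) (insert p S)) := by
  refine Dt.single (not_HA hp (fun h1 _ h3 _ t ht => by
    rw [h, List.mem_singleton] at ht
    rw [ht]
    exact hw h1 h3)) ?_ ?_
  · rw [step_cf]
    refine ⟨hp, q, b, d, by rw [h]; exact List.mem_singleton.2 rfl, fun _ h' => absurd h' hS,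
      fun _ => hp1, ?_⟩
    rw [nx_new hS]
  · intro z hz
    rw [step_cf] at hz
    obtain ⟨_, q', b', d', h1, _, _, rfl⟩ := hz
    rw [h, List.mem_singleton] at h1
    obtain ⟨rfl, h2⟩ := Prod.mk.inj h1
    obtain ⟨rfl, rfl⟩ := Prod.mk.inj h2
    rw [nx_new hS]

/-- A stuck configuration. -/
theorem dead_stuck {s : St m} {p : ℕ} {τ : ℕ → Sym Wk} {S : Set ℕ} (hp : p ≤ n + 1)
    (h : ntr s (τ p) = []) : DD m strict n (cf s p τ S) := by
  refine Dead.of_succ (not_HA_nil hp h) ?_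
  intro y hy
  rw [step_cf] at hy
  obtain ⟨_, q', b', d', h1, _⟩ := hy
  rw [h] at h1
  exact absurd h1 (List.not_mem_nil)

theorem Dt.dead {X : Type} {R : X → X → Prop} {H : X → Prop} {x y : X} (h : Dt R H x y)
    (hd : Dead R H y) : Dead R H x := by
  obtain ⟨h1, h2, h3⟩ := h
  refine Dead.of_succ h1 (fun z hz => ?_)
  rcases h3 z hz with rfl | h4
  · exact hd
  · exact h4

theorem dead_of_dts {X : Type} {R : X → X → Prop} {H : X → Prop} {x y : X}
    (h : ReflTransGen (Dt R H) x y) (hd : Dead R H y) : Dead R H x := by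
  induction h using ReflTransGen.head_induction_on with
  | refl => exact hd
  | head h1 _ ih => exact Dt.dead h1 ih

/-- Two choices on a visited cell, the first of which is dead. -/
theorem dt_vis2 {s q q' : St m} {p : ℕ} {τ : ℕ → Sym Wk} {S : Set ℕ} {b : Wk}
    (hp : p ≤ n + 1) (hp1 : 1 ≤ p) (hS : p ∈ S)
    (h : ntr s (τ p) = [(q', b, true), (q, b, true)] ∨ ntr s (τ p) = [(q, b, true), (q', b, true)])
    (hb : (τ p).rewrite b = τ p) (hd : DD m strict n (cf q' (p + 1) τ S)) :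
    DT m strict n (cf s p τ S) (cf q (p + 1) τ S) := by
  refine ⟨not_HA_vis hp hS, ?_, ?_⟩
  · rw [step_cf]
    refine ⟨hp, q, b, true, ?_, fun _ _ => hb, fun _ => hp1, ?_⟩
    · rcases h with h | h <;> rw [h] <;> simp
    · rw [nx_vis hS, if_pos rfl]
  · intro z hz
    rw [step_cf] at hz
    obtain ⟨_, q1, b1, d1, h1, _, _, rfl⟩ := hz
    have h2 : (q1, b1, d1) = (q, b, true) ∨ (q1, b1, d1) = (q', b, true) := by
      rcases h with h | h
      · rw [h, List.mem_cons, List.mem_singleton] at h1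
        exact h1.symm
      · rw [h, List.mem_cons, List.mem_singleton] at h1
        exact h1
    rcases h2 with h2 | h2
    · obtain ⟨rfl, h3⟩ := Prod.mk.inj h2
      obtain ⟨rfl, rfl⟩ := Prod.mk.inj h3
      left
      rw [nx_vis hS, if_pos rfl]
    · obtain ⟨rfl, h3⟩ := Prod.mk.inj h2
      obtain ⟨rfl, rfl⟩ := Prod.mk.inj h3
      right
      rw [nx_vis hS, if_pos rfl]
      exact hd

/-- The visited zone: the cells `o, ..., P - 1` hold the counter. -/
def Vz (m : ℕ) (τ : ℕ → Sym Wk) (S : Set ℕ) (o P : ℕ) : Prop :=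
  ∀ y, o + y < P → τ (o + y) = .sym (lay m y) ∧ o + y ∈ S

theorem Vz.mono {τ : ℕ → Sym Wk} {S : Set ℕ} {o P P' : ℕ} (h : Vz m τ S o P) (hP : P' ≤ P) :
    Vz m τ S o P' := fun y hy => h y (by omega)

variable {τ : ℕ → Sym Wk} {S : Set ℕ} {o P : ℕ}

/-- One step in the visited zone. -/
theorem dt_y (hV : Vz m τ S o P) (ho : 1 ≤ o) (hP : P ≤ n + 2) {s q : St m} {y : ℕ} {d : Bool}
    (hy : o + y < P) (h : ntr s (.sym (lay m y)) = [(q, lay m y, d)]) :
    DT m strict n (cf s (o + y) τ S) (cf q (if d = true then o + y + 1 else o + y - 1) τ S) := by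
  obtain ⟨h1, h2⟩ := hV y hy
  refine dt_vis (by omega) (by omega) h2 (b := lay m y) (by rw [h1]; exact h) ?_
  rw [h1]
  rfl

/-- A moving phase to the left. -/
theorem left_y (hV : Vz m τ S o P) (ho : 1 ≤ o) (hP : P ≤ n + 2) (g : ℕ → St m) {l p : ℕ}
    (hlp : l ≤ p) (hp : o + p < P) (h : ∀ y, l < y → y ≤ p →
      ntr (g y) (.sym (lay m y)) = [(g (y - 1), lay m y, false)]) :
    ReflTransGen (DT m strict n) (cf (g p) (o + p) τ S) (cf (g l) (o + l) τ S) := by
  induction p, hlp using Nat.le_induction with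
  | base => exact ReflTransGen.refl
  | succ p hlp ih =>
    have h1 := dt_y (strict := strict) hV ho hP hp (h (p + 1) (by omega) le_rfl)
    have h2 : o + (p + 1) - 1 = o + p := by omega
    rw [if_neg Bool.false_ne_true, h2, Nat.add_sub_cancel] at h1
    exact ReflTransGen.head h1 (ih (by omega) (fun y hy hy' => h y hy (by omega)))

/-- A moving phase to the right. -/
theorem right_y (hV : Vz m τ S o P) (ho : 1 ≤ o) (hP : P ≤ n + 2) (g : ℕ → St m) {l p : ℕ}
    (hlp : l ≤ p) (hp : o + p ≤ P) (h : ∀ y, l ≤ y → y < p →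
      ntr (g y) (.sym (lay m y)) = [(g (y + 1), lay m y, true)]) :
    ReflTransGen (DT m strict n) (cf (g l) (o + l) τ S) (cf (g p) (o + p) τ S) := by
  induction p, hlp using Nat.le_induction with
  | base => exact ReflTransGen.refl
  | succ p hlp ih =>
    have h1 := dt_y (strict := strict) hV ho hP (by omega) (h p hlp (by omega))
    rw [if_pos rfl] at h1
    exact ReflTransGen.tail (ih (by omega) (fun y hy hy' => h y hy (by omega))) h1

/-! ### The constant phases -/

theorem lay_ne_raw (m y : ℕ) (x : Bool) : lay m y ≠ .raw x := by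
  unfold lay
  split_ifs <;> exact fun h => by cases h

theorem ntr_te {μ : Md} {c x : Bool} {i : Fin (m + 1)} (y : ℕ) :
    ntr (.te μ c x i) (.sym (lay m y)) = [(.te μ c x i, lay m y, true)] := by
  have h := lay_ne_raw m y
  generalize lay m y = w at *
  cases w with
  | raw x => exact absurd rfl (h x)
  | _ => rfl

theorem ntr_ub {μ : Md} {c x : Bool} (y : ℕ) :
    ntr (m := m) (.ub μ c x) (.sym (lay m y)) = [(.ub μ c x, lay m y, true)] := by
  have h := lay_ne_raw m y
  generalize lay m y = w at *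
  cases w with
  | raw x => exact absurd rfl (h x)
  | _ => rfl

theorem ntr_arr {μ : Md} {f c : Bool} {k : Kd} (y : ℕ) :
    ntr (m := m) (.arr μ f c k) (.sym (lay m y)) = [(.arr μ f c k, lay m y, true)] := by
  have h := lay_ne_raw m y
  generalize lay m y = w at *
  cases w with
  | raw x => exact absurd rfl (h x)
  | _ => rfl

theorem ntr_wr {μ : Md} (y : ℕ) :
    ntr (m := m) (.wr μ) (.sym (lay m y)) = [(.wr μ, lay m y, true)] := by
  have h := lay_ne_raw m y
  generalize lay m y = w at *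
  cases w with
  | raw x => exact absurd rfl (h x)
  | _ => rfl

/-- States which walk to the right end of the visited zone. -/
def Walk (s : St m) : Prop := ∀ y, ntr s (.sym (lay m y)) = [(s, lay m y, true)]

theorem Walk.run {s : St m} (hs : Walk s) (hV : Vz m τ S o P) (ho : 1 ≤ o) (hP : P ≤ n + 2)
    {l : ℕ} (hl : o + l ≤ P) :
    ReflTransGen (DT m strict n) (cf s (o + l) τ S) (cf s P τ S) := by
  have h := right_y (strict := strict) hV ho hP (fun _ => s) (l := l) (p := P - o) (by omega)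
    (by omega) (fun y _ _ => hs y)
  have h2 : o + (P - o) = P := by omega
  rw [h2] at h
  exact h

theorem walk_te {μ : Md} {c x : Bool} {i : Fin (m + 1)} : Walk (.te μ c x i) := ntr_te
theorem walk_ub {μ : Md} {c x : Bool} : Walk (m := m) (.ub μ c x) := ntr_ub
theorem walk_arr {μ : Md} {f c : Bool} {k : Kd} : Walk (m := m) (.arr μ f c k) := ntr_arr
theorem walk_wr {μ : Md} : Walk (m := m) (.wr μ) := ntr_wr

theorem walk_fin {μ : Md} {f c : Bool} {i : Fin (m + 1)} : Walk (m := m) (fin μ f c i) := by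
  unfold fin
  split_ifs
  · exact walk_arr
  · exact walk_wr
  · exact walk_arr
  · exact walk_arr

end Pool.Agent.H720.CT
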