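import Mathlib
import Pool.Agent.H720.CT.Run

set_option autoImplicit false

/-!
The phases of the excursions.
-/

namespace Pool.Agent.H720.CT

open Relation Pool.Agent.H630R2.LA Pool.Agent.H720.UV

section arith

variable {m : ℕ}

theorem seg {s n q : ℕ} (hs : 1 ≤ s) (h1 : n - n % s ≤ q) (h2 : q ≤ n) :
    q % s + (n - q) = n % s := by
  have h3 := Nat.div_add_mod n s
  have h4 := Nat.mod_lt n (show 0 < s by omega)
  generalize n / s = a at *
  generalize n % s = b at *
  subst h3
  obtain ⟨e, rfl⟩ : ∃ e, q = s * a + e := ⟨q - s * a, by omega⟩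
  rw [Nat.mul_add_mod, Nat.mod_eq_of_lt (by omega)]
  omega

theorem seg0 {s n : ℕ} (hs : 1 ≤ s) : (n - n % s) % s = 0 := by
  have h1 := Nat.mod_le n s
  have h2 := seg (n := n) (q := n - n % s) hs le_rfl (by omega)
  omega

/-- Columns in the row of the digit `n`. -/
theorem ci_row (hm : 1 ≤ m) {n y : ℕ} (h1 : n - n % m ≤ y / 3) (h2 : y / 3 ≤ n) :
    ci m y + (n - y / 3) = n % m := seg hm h1 h2

theorem mod_mod_mul (n : ℕ) : n % (m * m) % m = n % m :=
  Nat.mod_mod_of_dvd n (Dvd.intro m rfl)

theorem mm_pos (hm : 1 ≤ m) : 1 ≤ m * m := Nat.mul_pos hm hm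

theorem mod_le_mod_mul (n : ℕ) : n % m ≤ n % (m * m) := by
  rw [← mod_mod_mul]
  exact Nat.mod_le _ _

theorem ri_le (hm : 1 ≤ m) {n y : ℕ} (h1 : n - n % (m * m) ≤ y / 3) (h2 : y / 3 ≤ n) :
    ri m y ≤ n % (m * m) / m := by
  have := seg (mm_pos hm) h1 h2
  unfold ri
  exact Nat.div_le_div_right (by omega)

theorem ri_row0 (hm : 1 ≤ m) (n : ℕ) : ri m (3 * (n - n % m)) = n % (m * m) / m := by
  have h0 := mod_le_mod_mul (m := m) n
  have h1 := seg (n := n) (q := n - n % m) (mm_pos hm) (by omega) (by omega)
  have h2 := Nat.mod_le n m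
  unfold ri
  have h3 : 3 * (n - n % m) / 3 = n - n % m := by omega
  rw [h3]
  have h4 : (n - n % m) % (m * m) = n % (m * m) - n % m := by omega
  rw [h4, ← mod_mod_mul (m := m) n]
  generalize n % (m * m) = D
  have h5 := Nat.div_add_mod D m
  have h6 : D - D % m = m * (D / m) := by omega
  rw [h6, Nat.mul_div_cancel_left _ (by omega)]

theorem ri_blk0 (hm : 1 ≤ m) (n : ℕ) : ri m (3 * (n - n % (m * m))) = 0 := by
  unfold ri
  have h3 : 3 * (n - n % (m * m)) / 3 = n - n % (m * m) := by omega
  rw [h3, seg0 (mm_pos hm), Nat.zero_div]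

theorem lay_blk {y : ℕ} (h1 : y % 3 = 0) (h2 : y / 3 % (m * m) = 0) : lay m y = .a .blk := by
  unfold lay kd
  rw [if_pos h1, if_pos h2]

theorem lay_row {y : ℕ} (h1 : y % 3 = 0) (h2 : y / 3 % (m * m) ≠ 0) (h3 : ci m y = 0) :
    lay m y = .a .row := by
  unfold lay kd
  unfold ci at h3
  rw [if_pos h1, if_neg h2, if_pos h3]

theorem ri_lt (hm : 1 ≤ m) (n : ℕ) : n % (m * m) / m < m := by
  rw [Nat.div_lt_iff_lt_mul (by omega)]
  exact Nat.mod_lt _ (mm_pos hm)

end arith

variable {m : ℕ} {strict : Prop} {n : ℕ} {τ : ℕ → Sym Wk} {S : Set ℕ} {o P : ℕ}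

/-- The state behind the digit with the index `e`. -/
def aft (m : ℕ) (μ : Md) (f c : Bool) (e : ℕ) : St m :=
  if e % m + 1 = m then fin μ f c (fn m (e % (m * m) / m + 1)) else .arr μ f c .mid

theorem walk_aft {μ : Md} {f c : Bool} {e : ℕ} : Walk (aft m μ f c e) := by
  unfold aft
  split_ifs
  · exact walk_fin
  · exact walk_arr

/-- Counting the rows of the block. -/
theorem phase_vb (hm : 1 ≤ m) (hV : Vz m τ S o P) (ho : 1 ≤ o) (hP : P ≤ n + 2) {e : ℕ}
    (hPe : o + 3 * e + 2 < P) (μ : Md) (f c : Bool) (hj : e % m + 1 = m)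
    (hr : (e - e % m) % (m * m) ≠ 0) :
    ReflTransGen (DT m strict n) (cf (.vb μ f c (fn m 1)) (o + (3 * (e - e % m) - 1)) τ S)
      (cf (aft m μ f c e) P τ S) := by
  have hms := mm_pos hm
  have h0 := mod_le_mod_mul (m := m) e
  have h1 := Nat.mod_le e (m * m)
  have hlt := ri_lt hm e
  have hrow := ri_row0 hm e
  have hblk := ri_blk0 hm e
  have hq : 1 ≤ e - e % m := by
    rcases Nat.eq_zero_or_pos (e - e % m) with h | h
    · rw [h, Nat.zero_mod] at hr
      exact absurd rfl hr
    · exact h
  -- the first cell
  have hfirst : ri m (3 * (e - e % m) - 1) + 1 = e % (m * m) / m := by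
    rcases left_cases hm (3 * (e - e % m)) (by omega) with h | h | h | h | h
    · omega
    · omega
    · have h2 : ci m (3 * (e - e % m)) = 0 := by
        unfold ci
        have h3 : 3 * (e - e % m) / 3 = e - e % m := by omega
        rw [h3, seg0 hm]
      omega
    · omega
    · have h3 : 3 * (e - e % m) / 3 = e - e % m := by omega
      rw [h3] at h
      omega
  have hle : e - e % (m * m) < e - e % m := by
    rcases Nat.lt_or_ge (e - e % (m * m)) (e - e % m) with h | h
    · exact h
    · have h2 : e - e % m = e - e % (m * m) := by omega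
      rw [h2, seg0 hms] at hr
      exact absurd rfl hr
  have hrun := left_y (strict := strict) hV ho hP
    (fun y => .vb μ f c (fn m (e % (m * m) / m - ri m y)))
    (l := 3 * (e - e % (m * m))) (p := 3 * (e - e % m) - 1) (by omega) (by omega) (by
      intro y hy1 hy2
      have hri := ri_le hm (n := e) (y := y) (by omega) (by omega)
      rcases left_cases hm y (by omega) with h | h | h | h | h
      · obtain ⟨h2, _, _, h3, _⟩ := h
        rw [h2, h3]
        rfl
      · obtain ⟨h2, _, _, h3, _⟩ := h
        rw [h2, h3]
        rfl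
      · obtain ⟨h2, _, _, h3, _⟩ := h
        rw [h2, h3]
        rfl
      · obtain ⟨h2, _, _, h3, _⟩ := h
        rw [h2]
        show [(St.vb μ f c (inc (fn m (e % (m * m) / m - ri m y))), Wk.a .row, false)] = _
        rw [inc_fn]
        congr 4
        congr 1
        omega
      · obtain ⟨h2, h3, _, _, _, _, h4⟩ := h
        exfalso
        have h5 := seg (n := e) (q := y / 3) hms (by omega) (by omega)
        have h6 := seg (n := e) (q := e - e % (m * m)) hms (by omega) (by omega)
        omega)
  have e1 : e % (m * m) / m - ri m (3 * (e - e % m) - 1) = 1 := by omega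
  have e2 : e % (m * m) / m - ri m (3 * (e - e % (m * m))) = e % (m * m) / m := by omega
  rw [e1, e2] at hrun
  refine hrun.trans ?_
  have hlay : lay m (3 * (e - e % (m * m))) = .a .blk := by
    apply lay_blk (by omega)
    have h3 : 3 * (e - e % (m * m)) / 3 = e - e % (m * m) := by omega
    rw [h3, seg0 hms]
  have hstep := dt_y (strict := strict) hV ho hP (s := .vb μ f c (fn m (e % (m * m) / m)))
    (q := fin μ f c (fn m (e % (m * m) / m + 1))) (y := 3 * (e - e % (m * m))) (d := true)
    (by omega) (by rw [hlay, ← inc_fn]; rfl)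
  rw [if_pos rfl] at hstep
  refine ReflTransGen.head hstep ?_
  have haft : aft m μ f c e = fin μ f c (fn m (e % (m * m) / m + 1)) := by
    unfold aft
    rw [if_pos hj]
  rw [haft]
  exact walk_fin.run hV ho hP (l := 3 * (e - e % (m * m)) + 1) (by omega)

/-- The last phase: what comes behind the digit `e`? -/
theorem phase_va (hm : 1 ≤ m) (hV : Vz m τ S o P) (ho : 1 ≤ o) (hP : P ≤ n + 2) {e : ℕ}
    (hPe : o + 3 * e + 2 < P) (μ : Md) (f c : Bool) :
    ReflTransGen (DT m strict n) (cf (.va μ f c (fn m 1)) (o + (3 * e + 1)) τ S)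
      (cf (aft m μ f c e) P τ S) := by
  have hms := mm_pos hm
  have h0 := mod_le_mod_mul (m := m) e
  have h1 := Nat.mod_le e (m * m)
  have hjlt := Nat.mod_lt e (show 0 < m by omega)
  have hrun := left_y (strict := strict) hV ho hP
    (fun y => .va μ f c (fn m (e % m + 1 - rm3 m y)))
    (l := 3 * (e - e % m)) (p := 3 * e + 1) (by omega) (by omega) (by
      intro y hy1 hy2
      have hci := ci_row hm (n := e) (y := y) (by omega) (by omega)
      rcases left_cases hm y (by omega) with h | h | h | h | h
      · obtain ⟨h2, h3, h4, _, h5⟩ := h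
        have h6 : rm3 m (y - 1) = rm3 m y := by
          unfold rm3
          rw [if_neg (by omega), if_neg (by omega), h5]
        rw [h2, h6]
        rfl
      · obtain ⟨h2, h3, h4, _, h5⟩ := h
        have h6 : rm3 m (y - 1) + 1 = rm3 m y := by
          unfold rm3
          rw [if_neg (by omega), if_pos (by omega), h5]
        have h7 : rm3 m y ≤ e % m + 1 := by
          unfold rm3
          rw [if_pos h3]
          omega
        rw [h2]
        show [(St.va μ f c (inc (fn m (e % m + 1 - rm3 m y))), Wk.d _, false)] = _
        rw [inc_fn]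
        congr 4
        congr 1
        omega
      · obtain ⟨h2, h3, h4, _, h5⟩ := h
        have h6 : rm3 m (y - 1) = rm3 m y := by
          unfold rm3
          rw [if_pos (by omega), if_neg (by omega)]
          omega
        rw [h2, h6]
        rfl
      · exfalso
        obtain ⟨_, h3, _, _, h5, _⟩ := h
        omega
      · exfalso
        obtain ⟨_, h3, _, _, h5, _⟩ := h
        omega)
  have hq3 : 3 * (e - e % m) / 3 = e - e % m := by omega
  have hci0 : ci m (3 * (e - e % m)) = 0 := by
    unfold ci
    rw [hq3, seg0 hm]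
  have hrm0 : rm3 m (3 * (e - e % m)) = 0 := by
    unfold rm3
    rw [hci0, if_neg (by omega)]
  have hrm1 : rm3 m (3 * e + 1) = e % m := by
    unfold rm3 ci
    have h3 : (3 * e + 1) / 3 = e := by omega
    rw [h3, if_neg (by omega), Nat.add_zero]
  have e1 : e % m + 1 - rm3 m (3 * e + 1) = 1 := by omega
  have e2 : e % m + 1 - rm3 m (3 * (e - e % m)) = e % m + 1 := by omega
  rw [e1, e2] at hrun
  refine hrun.trans ?_
  have hval : (fn m (e % m + 1)).val = e % m + 1 := fn_val (by omega)
  by_cases hr : (e - e % m) % (m * m) = 0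
  · have hlay : lay m (3 * (e - e % m)) = .a .blk := by
      apply lay_blk (by omega)
      rw [hq3]; exact hr
    have hri : e % (m * m) / m = 0 := by
      rw [← ri_row0 hm e]
      unfold ri
      rw [hq3, hr, Nat.zero_div]
    by_cases hj : e % m + 1 = m
    · have hstep := dt_y (strict := strict) hV ho hP (s := .va μ f c (fn m (e % m + 1)))
        (q := fin μ f c (fn m 1)) (y := 3 * (e - e % m)) (d := true) (by omega) (by
          rw [hlay]
          show (if (fn m (e % m + 1)).val = m then _ else _) = _
          rw [hval, if_pos hj])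
      rw [if_pos rfl] at hstep
      refine ReflTransGen.head hstep ?_
      have haft : aft m μ f c e = fin μ f c (fn m 1) := by
        unfold aft
        rw [if_pos hj, hri]
      rw [haft]
      exact walk_fin.run hV ho hP (l := 3 * (e - e % m) + 1) (by omega)
    · have hstep := dt_y (strict := strict) hV ho hP (s := .va μ f c (fn m (e % m + 1)))
        (q := .arr μ f c .mid) (y := 3 * (e - e % m)) (d := true) (by omega) (by
          rw [hlay]
          show (if (fn m (e % m + 1)).val = m then _ else _) = _
          rw [hval, if_neg hj])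
      rw [if_pos rfl] at hstep
      refine ReflTransGen.head hstep ?_
      have haft : aft m μ f c e = .arr μ f c .mid := by
        unfold aft
        rw [if_neg hj]
      rw [haft]
      exact walk_arr.run hV ho hP (l := 3 * (e - e % m) + 1) (by omega)
  · have hlay : lay m (3 * (e - e % m)) = .a .row := by
      apply lay_row (by omega) (by rw [hq3]; exact hr) hci0
    by_cases hj : e % m + 1 = m
    · have hstep := dt_y (strict := strict) hV ho hP (s := .va μ f c (fn m (e % m + 1)))
        (q := .vb μ f c (fn m 1)) (y := 3 * (e - e % m)) (d := false) (by omega) (by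
          rw [hlay]
          show (if (fn m (e % m + 1)).val = m then _ else _) = _
          rw [hval, if_pos hj])
      rw [if_neg Bool.false_ne_true] at hstep
      refine ReflTransGen.head hstep ?_
      have hpos : 1 ≤ e - e % m := by
        rcases Nat.eq_zero_or_pos (e - e % m) with h | h
        · rw [h, Nat.zero_mod] at hr
          exact absurd rfl hr
        · exact h
      have h5 : o + 3 * (e - e % m) - 1 = o + (3 * (e - e % m) - 1) := by omega
      rw [h5]
      exact phase_vb hm hV ho hP hPe μ f c hj hr
    · have hstep := dt_y (strict := strict) hV ho hP (s := .va μ f c (fn m (e % m + 1)))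
        (q := .arr μ f c .mid) (y := 3 * (e - e % m)) (d := true) (by omega) (by
          rw [hlay]
          show (if (fn m (e % m + 1)).val = m then _ else _) = _
          rw [hval, if_neg hj])
      rw [if_pos rfl] at hstep
      refine ReflTransGen.head hstep ?_
      have haft : aft m μ f c e = .arr μ f c .mid := by
        unfold aft
        rw [if_neg hj]
      rw [haft]
      exact walk_arr.run hV ho hP (l := 3 * (e - e % m) + 1) (by omega)

/-- The verification of the column. -/
theorem phase_ua (hm : 1 ≤ m) (hV : Vz m τ S o P) (ho : 1 ≤ o) (hP : P ≤ n + 2) {e : ℕ}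
    (hPe : o + 3 * e < P) (μ : Md) (c x : Bool) :
    ReflTransGen (DT m strict n) (cf (.ua μ c x (fn m (e % m))) (o + 3 * e) τ S)
      (cf (.ub μ c x) P τ S) := by
  have hms := mm_pos hm
  have hjlt := Nat.mod_lt e (show 0 < m by omega)
  have hrun := left_y (strict := strict) hV ho hP
    (fun y => .ua μ c x (fn m (rm3 m y)))
    (l := 3 * (e - e % m)) (p := 3 * e) (by omega) (by omega) (by
      intro y hy1 hy2
      have hci := ci_row hm (n := e) (y := y) (by omega) (by omega)
      rcases left_cases hm y (by omega) with h | h | h | h | h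
      · obtain ⟨h2, h3, h4, _, h5⟩ := h
        have h6 : rm3 m (y - 1) = rm3 m y := by
          unfold rm3
          rw [if_neg (by omega), if_neg (by omega), h5]
        rw [h2, h6]
        rfl
      · obtain ⟨h2, h3, h4, _, h5⟩ := h
        have h6 : rm3 m (y - 1) + 1 = rm3 m y := by
          unfold rm3
          rw [if_neg (by omega), if_pos (by omega), h5]
        have h7 : rm3 m y ≤ m := by
          unfold rm3
          rw [if_pos h3]
          omega
        rw [h2]
        show (if (fn m (rm3 m y)).val = 0 then _ else
          [(St.ua μ c x (dec (fn m (rm3 m y))), Wk.d _, false)]) = _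
        rw [fn_val h7, if_neg (by omega), dec_fn h7]
        congr 4
        congr 1
        omega
      · obtain ⟨h2, h3, h4, _, h5⟩ := h
        have h6 : rm3 m (y - 1) = rm3 m y := by
          unfold rm3
          rw [if_pos (by omega), if_neg (by omega)]
          omega
        rw [h2, h6]
        rfl
      · exfalso
        obtain ⟨_, h3, _, _, h5, _⟩ := h
        omega
      · exfalso
        obtain ⟨_, h3, _, _, h5, _⟩ := h
        omega)
  have hq3 : 3 * (e - e % m) / 3 = e - e % m := by omega
  have hci0 : ci m (3 * (e - e % m)) = 0 := by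
    unfold ci
    rw [hq3, seg0 hm]
  have hrm0 : rm3 m (3 * (e - e % m)) = 0 := by
    unfold rm3
    rw [hci0, if_neg (by omega)]
  have hrm1 : rm3 m (3 * e) = e % m := by
    unfold rm3 ci
    have h3 : (3 * e) / 3 = e := by omega
    rw [h3, if_neg (by omega), Nat.add_zero]
  rw [hrm0, hrm1] at hrun
  refine hrun.trans ?_
  have hv0 : (fn m 0).val = 0 := fn_val (by omega)
  have hlay : ∃ k, k ≠ Kd.mid ∧ lay m (3 * (e - e % m)) = .a k := by
    by_cases hr : (e - e % m) % (m * m) = 0
    · exact ⟨.blk, by simp, lay_blk (by omega) (by rw [hq3]; exact hr)⟩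
    · exact ⟨.row, by simp, lay_row (by omega) (by rw [hq3]; exact hr) hci0⟩
  obtain ⟨k, hk, hlay⟩ := hlay
  have hstep := dt_y (strict := strict) hV ho hP (s := .ua μ c x (fn m 0))
    (q := .ub μ c x) (y := 3 * (e - e % m)) (d := true) (by omega) (by
      rw [hlay]
      cases k with
      | mid => exact absurd rfl hk
      | row => simp only [ntr, hv0, if_true]
      | blk => simp only [ntr, hv0, if_true])
  rw [if_pos rfl] at hstep
  refine ReflTransGen.head hstep ?_
  exact walk_ub.run hV ho hP (l := 3 * (e - e % m) + 1) (by omega)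

/-- A wrong column. -/
theorem dead_ua (hm : 1 ≤ m) (hV : Vz m τ S o P) (ho : 1 ≤ o) (hP : P ≤ n + 2) {e : ℕ}
    (hPe : o + 3 * e < P) (μ : Md) (c x : Bool) {j' : ℕ} (hj : j' ≤ m) (hj' : j' ≠ e % m) :
    DD m strict n (cf (.ua μ c x (fn m j')) (o + 3 * e) τ S) := by
  have hms := mm_pos hm
  have hjlt := Nat.mod_lt e (show 0 < m by omega)
  have hq3 : 3 * (e - e % m) / 3 = e - e % m := by omega
  have hci0 : ci m (3 * (e - e % m)) = 0 := by
    unfold ci
    rw [hq3, seg0 hm]
  have key : ∀ t y v, y = 3 * (e - e % m) + t → y ≤ 3 * e → v + e % m = j' + rm3 m y →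
      DD m strict n (cf (.ua μ c x (fn m v)) (o + y) τ S) := by
    intro t
    induction t with
    | zero =>
      intro y v hy hye hv
      rw [Nat.add_zero] at hy
      subst hy
      have hrm0 : rm3 m (3 * (e - e % m)) = 0 := by
        unfold rm3
        rw [hci0, if_neg (by omega)]
      have hvm : (fn m v).val = v := fn_val (by omega)
      have hv0 : v ≠ 0 := by omega
      obtain ⟨g1, g2⟩ := hV (3 * (e - e % m)) (by omega)
      apply dead_stuck (by omega)
      rw [g1]
      by_cases hr : (e - e % m) % (m * m) = 0
      · rw [lay_blk (by omega) (by rw [hq3]; exact hr)]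
        show (if (fn m v).val = 0 then _ else []) = _
        rw [hvm, if_neg hv0]
      · rw [lay_row (by omega) (by rw [hq3]; exact hr) hci0]
        show (if (fn m v).val = 0 then _ else []) = _
        rw [hvm, if_neg hv0]
    | succ t ih =>
      intro y v hy hye hv
      have hci := ci_row hm (n := e) (y := y) (by omega) (by omega)
      obtain ⟨g1, g2⟩ := hV y (by omega)
      rcases left_cases hm y (by omega) with h | h | h | h | h
      · obtain ⟨h2, h3, h4, _, h5⟩ := h
        have h6 : rm3 m (y - 1) = rm3 m y := by
          unfold rm3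
          rw [if_neg (by omega), if_neg (by omega), h5]
        have hstep := dt_y (strict := strict) hV ho hP (s := .ua μ c x (fn m v))
          (q := .ua μ c x (fn m v)) (y := y) (d := false) (by omega) (by rw [h2]; rfl)
        rw [if_neg Bool.false_ne_true] at hstep
        have h7 : o + y - 1 = o + (y - 1) := by omega
        rw [h7] at hstep
        exact Dt.dead hstep (ih (y - 1) v (by omega) (by omega) (by omega))
      · obtain ⟨h2, h3, h4, _, h5⟩ := h
        have h6 : rm3 m (y - 1) + 1 = rm3 m y := by
          unfold rm3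
          rw [if_neg (by omega), if_pos (by omega), h5]
        have h8 : rm3 m y ≤ e % m := by
          unfold rm3
          rw [if_pos h3]
          omega
        have hvm : (fn m v).val = v := fn_val (by omega)
        by_cases hv0 : v = 0
        · apply dead_stuck (by omega)
          rw [g1, h2]
          show (if (fn m v).val = 0 then [] else _) = _
          rw [hvm, if_pos hv0]
        · have hstep := dt_y (strict := strict) hV ho hP (s := .ua μ c x (fn m v))
            (q := .ua μ c x (fn m (v - 1))) (y := y) (d := false) (by omega) (by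
              rw [h2]
              show (if (fn m v).val = 0 then _ else
                [(St.ua μ c x (dec (fn m v)), Wk.d _, false)]) = _
              rw [hvm, if_neg hv0, dec_fn (by omega)])
          rw [if_neg Bool.false_ne_true] at hstep
          have h7 : o + y - 1 = o + (y - 1) := by omega
          rw [h7] at hstep
          exact Dt.dead hstep (ih (y - 1) (v - 1) (by omega) (by omega) (by omega))
      · obtain ⟨h2, h3, h4, _, h5⟩ := h
        have h6 : rm3 m (y - 1) = rm3 m y := by
          unfold rm3
          rw [if_pos (by omega), if_neg (by omega)]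
          omega
        have hstep := dt_y (strict := strict) hV ho hP (s := .ua μ c x (fn m v))
          (q := .ua μ c x (fn m v)) (y := y) (d := false) (by omega) (by rw [h2]; rfl)
        rw [if_neg Bool.false_ne_true] at hstep
        have h7 : o + y - 1 = o + (y - 1) := by omega
        rw [h7] at hstep
        exact Dt.dead hstep (ih (y - 1) v (by omega) (by omega) (by omega))
      · exfalso
        obtain ⟨_, h3, _, _, h5, _⟩ := h
        omega
      · exfalso
        obtain ⟨_, h3, _, _, h5, _⟩ := h
        omega
  have hle := Nat.mod_le e m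
  refine key (3 * (e % m)) (3 * e) j' (by omega) le_rfl ?_
  have hrm1 : rm3 m (3 * e) = e % m := by
    unfold rm3 ci
    have h3 : (3 * e) / 3 = e := by omega
    rw [h3, if_neg (by omega), Nat.add_zero]
  rw [hrm1]

end Pool.Agent.H720.CT
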