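import Mathlib
import Pool.Agent.H720.CT.Ph

set_option autoImplicit false

/-!
The first excursion: fetching the digit of the previous block.
-/

namespace Pool.Agent.H720.CT

open Relation Pool.Agent.H630R2.LA Pool.Agent.H720.UV

variable {m : ℕ} {strict : Prop} {n : ℕ} {τ : ℕ → Sym Wk} {S : Set ℕ} {o P : ℕ}

theorem phase_ta (hm : 1 ≤ m) (hV : Vz m τ S o P) (ho : 1 ≤ o) (hP : P ≤ n + 2) {e : ℕ}
    (hPe : o + 3 * e < P) (hD : e % (m * m) ≠ 0) (hk : m * m ≤ e) (μ : Md) (c : Bool) :
    ReflTransGen (DT m strict n)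
      (cf (.ta μ c (fn m (e % (m * m) / m - ri m (3 * e - 1)))) (o + (3 * e - 1)) τ S)
      (cf (.tb μ c (fn m (e % (m * m) / m))) (o + (3 * (e - e % (m * m)) - 1)) τ S) := by
  have hms := mm_pos hm
  have h1 := Nat.mod_le e (m * m)
  have h1' := Nat.mod_lt e (show 0 < m * m by omega)
  have hlt := ri_lt hm e
  have hblk := ri_blk0 hm e
  have hrun := left_y (strict := strict) hV ho hP
    (fun y => .ta μ c (fn m (e % (m * m) / m - ri m y)))
    (l := 3 * (e - e % (m * m))) (p := 3 * e - 1) (by omega) (by omega) (by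
      intro y hy1 hy2
      have hri := ri_le hm (n := e) (y := y) (by omega) (by omega)
      rcases left_cases hm y (by omega) with h | h | h | h | h
      · obtain ⟨h2, _, _, h3, _⟩ := h
        rw [h2, h3]
        rfl
      · obtain ⟨h2, _, _, h3, _⟩ := h
        rw [h2, h3]
        rfl
      · obtain ⟨h2, _, _, h3, _⟩ := h
        rw [h2, h3]
        rfl
      · obtain ⟨h2, _, _, h3, _⟩ := h
        rw [h2]
        show [(St.ta μ c (inc (fn m (e % (m * m) / m - ri m y))), Wk.a .row, false)] = _
        rw [inc_fn]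
        congr 4
        congr 1
        omega
      · obtain ⟨h2, h3, _, _, _, _, h4⟩ := h
        exfalso
        have h5 := seg (n := e) (q := y / 3) hms (by omega) (by omega)
        have h6 := seg (n := e) (q := e - e % (m * m)) hms (by omega) (by omega)
        omega)
  have e2 : e % (m * m) / m - ri m (3 * (e - e % (m * m))) = e % (m * m) / m := by
    rw [hblk, Nat.sub_zero]
  rw [e2] at hrun
  refine hrun.trans (ReflTransGen.single ?_)
  have hlay : lay m (3 * (e - e % (m * m))) = .a .blk := by
    apply lay_blk (by omega)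
    have h3 : 3 * (e - e % (m * m)) / 3 = e - e % (m * m) := by omega
    rw [h3, seg0 hms]
  have hstep := dt_y (strict := strict) hV ho hP (s := .ta μ c (fn m (e % (m * m) / m)))
    (q := .tb μ c (fn m (e % (m * m) / m))) (y := 3 * (e - e % (m * m))) (d := false)
    (by omega) (by rw [hlay]; rfl)
  rw [if_neg Bool.false_ne_true] at hstep
  have h5 : o + 3 * (e - e % (m * m)) - 1 = o + (3 * (e - e % (m * m)) - 1) := by omega
  rw [h5] at hstep
  exact hstep

/-- Digits of the previous block. -/
theorem prev_mod (hm : 1 ≤ m) {e q : ℕ} (hk : m * m ≤ e) (h1 : e - e % (m * m) - m * m ≤ q)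
    (h2 : q < e - e % (m * m)) : q % (m * m) + (e - e % (m * m) - m * m) = q := by
  have hms := mm_pos hm
  have h3 := Nat.div_add_mod e (m * m)
  have h4 := Nat.mod_lt e (show 0 < m * m by omega)
  have h5 : 1 ≤ e / (m * m) := Nat.div_pos hk (by omega)
  generalize e % (m * m) = D at *
  obtain ⟨a, ha⟩ : ∃ a, e / (m * m) = a + 1 := ⟨e / (m * m) - 1, by omega⟩
  rw [ha, Nat.mul_add, Nat.mul_one] at h3
  generalize m * m = s at *
  obtain ⟨x, rfl⟩ : ∃ x, q = s * a + x := ⟨q - s * a, by omega⟩
  rw [Nat.mul_add_mod, Nat.mod_eq_of_lt (by omega)]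
  omega

theorem phase_tb (hm : 1 ≤ m) (hV : Vz m τ S o P) (ho : 1 ≤ o) (hP : P ≤ n + 2) {e : ℕ}
    (hPe : o + 3 * e < P) (hk : m * m ≤ e) (μ : Md) (c : Bool) (i : ℕ) (hi : i ≤ m) :
    ReflTransGen (DT m strict n)
      (cf (.tb μ c (fn m i)) (o + (3 * (e - e % (m * m)) - 1)) τ S)
      (cf (if i = 0 then .td μ c (fn m 0) else .tc μ c (fn m i))
        (o + (3 * (e - e % (m * m) - m * m) + 1)) τ S) := by
  have hms := mm_pos hm
  have h1 := Nat.mod_le e (m * m)
  have h1' := Nat.mod_lt e (show 0 < m * m by omega)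
  have h3 := Nat.div_add_mod e (m * m)
  have h5 : 1 ≤ e / (m * m) := Nat.div_pos hk (by omega)
  have hge : m * m ≤ m * m * (e / (m * m)) := Nat.le_mul_of_pos_right _ h5
  have hrun := left_y (strict := strict) hV ho hP
    (fun _ => .tb μ c (fn m i))
    (l := 3 * (e - e % (m * m) - m * m)) (p := 3 * (e - e % (m * m)) - 1) (by omega) (by omega) (by
      intro y hy1 hy2
      rcases left_cases hm y (by omega) with h | h | h | h | h
      · obtain ⟨h2, _⟩ := h
        rw [h2]
        rfl
      · obtain ⟨h2, _⟩ := h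
        rw [h2]
        rfl
      · obtain ⟨h2, _⟩ := h
        rw [h2]
        rfl
      · obtain ⟨h2, _⟩ := h
        rw [h2]
        rfl
      · obtain ⟨h2, h3, _, _, _, _, h4⟩ := h
        exfalso
        have h5 := prev_mod hm (q := y / 3) hk (by omega) (by omega)
        omega)
  refine hrun.trans (ReflTransGen.single ?_)
  have hlay : lay m (3 * (e - e % (m * m) - m * m)) = .a .blk := by
    apply lay_blk (by omega)
    have h3 : 3 * (e - e % (m * m) - m * m) / 3 = e - e % (m * m) - m * m := by omega
    have h5 := prev_mod hm (q := e - e % (m * m) - m * m) hk (by omega) (by omega)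
    rw [h3]
    omega
  have hiv : (fn m i).val = i := fn_val hi
  have hstep := dt_y (strict := strict) hV ho hP (s := .tb μ c (fn m i))
    (q := if i = 0 then .td μ c (fn m 0) else .tc μ c (fn m i))
    (y := 3 * (e - e % (m * m) - m * m)) (d := true)
    (by omega) (by
      rw [hlay]
      simp only [ntr, hiv]
      split_ifs <;> rfl)
  rw [if_pos rfl] at hstep
  exact hstep

theorem phase_tc (hm : 1 ≤ m) (hV : Vz m τ S o P) (ho : 1 ≤ o) (hP : P ≤ n + 2) {e : ℕ}
    (hPe : o + 3 * e < P) (hk : m * m ≤ e) (μ : Md) (c : Bool) (i : ℕ) (hi : i < m)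
    (hi1 : 1 ≤ i) :
    ReflTransGen (DT m strict n)
      (cf (.tc μ c (fn m i)) (o + (3 * (e - e % (m * m) - m * m) + 1)) τ S)
      (cf (.td μ c (fn m 0)) (o + (3 * (e - e % (m * m) - m * m + m * i) + 1)) τ S) := by
  have hms := mm_pos hm
  have h1 := Nat.mod_le e (m * m)
  have h1' := Nat.mod_lt e (show 0 < m * m by omega)
  have h3 := Nat.div_add_mod e (m * m)
  have h5 : 1 ≤ e / (m * m) := Nat.div_pos hk (by omega)
  have hge : m * m ≤ m * m * (e / (m * m)) := Nat.le_mul_of_pos_right _ h5
  have him : m * i + m ≤ m * m := by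
    calc m * i + m = m * (i + 1) := by ring
      _ ≤ m * m := Nat.mul_le_mul_left _ hi
  have him1 : m ≤ m * i := Nat.le_mul_of_pos_right _ hi1
  set q1 := e - e % (m * m) - m * m with hq1
  have hri : ∀ y, q1 ≤ y / 3 → y / 3 < q1 + m * m → ri m y = (y / 3 - q1) / m := by
    intro y hy1 hy2
    have h6 := prev_mod hm (q := y / 3) hk (by omega) (by omega)
    unfold ri
    congr 1
    omega
  have hri0 : ri m (3 * q1 + 1 - 1) = 0 := by
    rw [hri _ (by omega) (by omega)]
    apply Nat.div_eq_of_lt
    omega
  have hri1 : ri m (3 * (q1 + m * i) - 1) + 1 = i := by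
    rw [hri _ (by omega) (by omega)]
    have h6 : (3 * (q1 + m * i) - 1) / 3 - q1 = m * i - 1 := by omega
    rw [h6]
    have h7 := (pred_div_mod (m := m) (n := m * i) hm (by omega)).2 (Nat.mul_mod_right m i)
    rw [h7.1, Nat.mul_div_cancel_left _ (by omega)]
  have hrun := right_y (strict := strict) hV ho hP
    (fun y => .tc μ c (fn m (i - ri m (y - 1))))
    (l := 3 * q1 + 1) (p := 3 * (q1 + m * i)) (by omega) (by omega) (by
      intro y hy1 hy2
      have hry := hri y (by omega) (by omega)
      have hlt : (y / 3 - q1) / m < i := by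
        rw [Nat.div_lt_iff_lt_mul (by omega), Nat.mul_comm]
        omega
      rcases left_cases hm y (by omega) with h | h | h | h | h
      · obtain ⟨h2, _, _, h3, _⟩ := h
        rw [h2, h3, Nat.add_sub_cancel]
        rfl
      · obtain ⟨h2, _, _, h3, _⟩ := h
        rw [h2, h3, Nat.add_sub_cancel]
        rfl
      · obtain ⟨h2, _, _, h3, _⟩ := h
        rw [h2, h3, Nat.add_sub_cancel]
        rfl
      · obtain ⟨h2, _, _, h3, _⟩ := h
        have h8 : (fn m (i - ri m (y - 1))).val = i - ri m (y - 1) := fn_val (by omega)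
        rw [h2, Nat.add_sub_cancel]
        simp only [ntr, h8]
        have h9 : i - ri m (y - 1) - 1 = i - ri m y := by omega
        rw [if_neg (by omega), dec_fn (by omega), h9]
      · obtain ⟨h2, h3, _, _, _, _, h4⟩ := h
        exfalso
        have h5 := prev_mod hm (q := y / 3) hk (by omega) (by omega)
        omega)
  have e1 : i - ri m (3 * q1 + 1 - 1) = i := by omega
  have e2 : i - ri m (3 * (q1 + m * i) - 1) = 1 := by omega
  rw [e1, e2] at hrun
  refine hrun.trans (ReflTransGen.single ?_)
  have hq3 : 3 * (q1 + m * i) / 3 = q1 + m * i := by omega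
  have hmod := prev_mod hm (q := q1 + m * i) hk (by omega) (by omega)
  have hlay : lay m (3 * (q1 + m * i)) = .a .row := by
    apply lay_row (by omega)
    · rw [hq3]
      omega
    · unfold ci
      rw [hq3, ← mod_mod_mul]
      have h6 : (q1 + m * i) % (m * m) = m * i := by omega
      rw [h6, Nat.mul_mod_right]
  have hv1 : (fn m 1).val = 1 := fn_val (by omega)
  have hstep := dt_y (strict := strict) hV ho hP (s := .tc μ c (fn m 1))
    (q := .td μ c (fn m 0)) (y := 3 * (q1 + m * i)) (d := true)
    (by omega) (by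
      rw [hlay]
      simp only [ntr, hv1]
      rw [if_pos trivial])
  rw [if_pos rfl] at hstep
  exact hstep

/-- Reading the row of the old digit. -/
theorem phase_td (hm : 1 ≤ m) (hV : Vz m τ S o P) (ho : 1 ≤ o) (hP : P ≤ n + 2) {e : ℕ}
    (hPe : o + 3 * e < P) (hk : m * m ≤ e) (μ : Md) (c : Bool)
    (hd : ∀ x j', j' < m → j' ≠ e % m → DD m strict n (cf (.te μ c x (fn m j')) P τ S)) :
    ReflTransGen (DT m strict n)
      (cf (.td μ c (fn m 0)) (o + (3 * (e - m * m - e % m) + 1)) τ S)
      (cf (.te μ c (((e - m * m) / (m * m)).testBit ((e - m * m) % (m * m))) (fn m (e % m)))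
        P τ S) := by
  have hms := mm_pos hm
  have hjlt := Nat.mod_lt e (show 0 < m by omega)
  have hle := Nat.mod_le e m
  have h0 := mod_le_mod_mul (m := m) e
  have h3 := Nat.div_add_mod e (m * m)
  have h5 : 1 ≤ e / (m * m) := Nat.div_pos hk (by omega)
  have hge : m * m ≤ m * m * (e / (m * m)) := Nat.le_mul_of_pos_right _ h5
  have hmm : m ≤ m * m := Nat.le_mul_of_pos_right _ hm
  have hj : (e - m * m) % m = e % m := by
    obtain ⟨t, ht⟩ : ∃ t, e = m * m + t := ⟨e - m * m, by omega⟩
    rw [ht, Nat.add_sub_cancel_left, Nat.mul_add_mod]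
  set r1 := e - m * m - e % m with hr1
  have hr1m : r1 % m = 0 := by
    have := seg0 (n := e - m * m) hm
    rw [hj] at this
    exact this
  have hcol : ∀ q, r1 ≤ q → q < r1 + m → q % m = q - r1 := by
    intro q hq1 hq2
    have h6 := Nat.div_add_mod r1 m
    rw [hr1m, Nat.add_zero] at h6
    obtain ⟨x, rfl⟩ : ∃ x, q = m * (r1 / m) + x := ⟨q - m * (r1 / m), by omega⟩
    rw [Nat.mul_add_mod, Nat.mod_eq_of_lt (by omega)]
    omega
  -- wrong guesses
  have hdead : ∀ t y, y + t = 3 * (r1 + m) → 3 * (e - m * m) + 3 ≤ y →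
      DD m strict n (cf (.td μ c (fn m (y / 3 - r1))) (o + y) τ S) := by
    intro t
    induction t with
    | zero =>
      intro y hy hye
      rw [Nat.add_zero] at hy
      subst hy
      obtain ⟨g1, g2⟩ := hV (3 * (r1 + m)) (by omega)
      have hq3 : 3 * (r1 + m) / 3 = r1 + m := by omega
      apply dead_stuck (by omega)
      rw [g1]
      by_cases hr : (r1 + m) % (m * m) = 0
      · rw [lay_blk (by omega) (by rw [hq3]; exact hr)]
        rfl
      · rw [lay_row (by omega) (by rw [hq3]; exact hr) (by
          unfold ci; rw [hq3, Nat.add_mod_right]; exact hr1m)]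
        rfl
    | succ t ih =>
      intro y hy hye
      have hih := ih (y + 1) (by omega) (by omega)
      have hyP : o + y < P := by omega
      obtain ⟨g1, g2⟩ := hV y hyP
      have hc := hcol (y / 3) (by omega) (by omega)
      rcases left_cases hm y (by omega) with h | h | h | h | h
      · obtain ⟨h2, h3, _⟩ := h
        have hstep := dt_y (strict := strict) hV ho hP (s := .td μ c (fn m (y / 3 - r1)))
          (q := .td μ c (fn m (y / 3 - r1))) (y := y) (d := true) hyP (by rw [h2]; rfl)
        rw [if_pos rfl] at hstep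
        have h7 : (y + 1) / 3 = y / 3 := by omega
        rw [h7] at hih
        exact Dt.dead hstep hih
      · obtain ⟨h2, h3, _⟩ := h
        have hte : DD m strict n (cf (.te μ c ((y / 3 / (m * m)).testBit (y / 3 % (m * m)))
            (fn m (y / 3 - r1))) (o + (y + 1)) τ S) := by
          apply dead_of_dts (walk_te.run hV ho hP (l := y + 1) (by omega))
          exact hd _ _ (by omega) (by omega)
        have hstep := dt_vis2 (strict := strict) (n := n) (s := .td μ c (fn m (y / 3 - r1)))
          (q := .td μ c (fn m ((y + 1) / 3 - r1)))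
          (q' := .te μ c ((y / 3 / (m * m)).testBit (y / 3 % (m * m))) (fn m (y / 3 - r1)))
          (p := o + y) (τ := τ) (S := S) (b := lay m y) (by omega) (by omega) g2 (by
            left
            rw [g1, h2]
            show [_, (St.td μ c (inc (fn m (y / 3 - r1))), Wk.d _, true)] = _
            rw [inc_fn]
            have h7 : y / 3 - r1 + 1 = (y + 1) / 3 - r1 := by omega
            rw [h7]) (by rw [g1]; rfl) hte
        exact Dt.dead hstep hih
      · obtain ⟨h2, h3, _⟩ := h
        have hstep := dt_y (strict := strict) hV ho hP (s := .td μ c (fn m (y / 3 - r1)))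
          (q := .td μ c (fn m (y / 3 - r1))) (y := y) (d := true) hyP (by rw [h2]; rfl)
        rw [if_pos rfl] at hstep
        have h7 : (y + 1) / 3 = y / 3 := by omega
        rw [h7] at hih
        exact Dt.dead hstep hih
      · exfalso
        obtain ⟨_, h3, _, _, h5, _⟩ := h
        unfold ci at h5
        omega
      · exfalso
        obtain ⟨_, h3, _, _, h5, _⟩ := h
        unfold ci at h5
        omega
  -- the way to the digit
  have hgo : ∀ t, 3 * r1 + 1 + t ≤ 3 * (e - m * m) + 2 →
      ReflTransGen (DT m strict n) (cf (.td μ c (fn m 0)) (o + (3 * r1 + 1)) τ S)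
        (cf (.td μ c (fn m ((3 * r1 + 1 + t) / 3 - r1))) (o + (3 * r1 + 1 + t)) τ S) := by
    intro t
    induction t with
    | zero =>
      intro _
      have h7 : (3 * r1 + 1 + 0) / 3 - r1 = 0 := by omega
      rw [h7]
    | succ t ih =>
      intro ht
      refine (ih (by omega)).tail ?_
      obtain ⟨y, hy⟩ : ∃ y, y = 3 * r1 + 1 + t := ⟨_, rfl⟩
      have hy2 : 3 * r1 + 1 + (t + 1) = y + 1 := by omega
      rw [hy2, ← hy]
      have hyP : o + y < P := by omega
      obtain ⟨g1, g2⟩ := hV y hyP
      have hc := hcol (y / 3) (by omega) (by omega)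
      rcases left_cases hm y (by omega) with h | h | h | h | h
      · obtain ⟨h2, h3, _⟩ := h
        have hstep := dt_y (strict := strict) hV ho hP (s := .td μ c (fn m (y / 3 - r1)))
          (q := .td μ c (fn m (y / 3 - r1))) (y := y) (d := true) hyP (by rw [h2]; rfl)
        rw [if_pos rfl] at hstep
        have h7 : (y + 1) / 3 = y / 3 := by omega
        rw [h7]
        exact hstep
      · obtain ⟨h2, h3, _⟩ := h
        have hte : DD m strict n (cf (.te μ c ((y / 3 / (m * m)).testBit (y / 3 % (m * m)))
            (fn m (y / 3 - r1))) (o + (y + 1)) τ S) := by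
          apply dead_of_dts (walk_te.run hV ho hP (l := y + 1) (by omega))
          exact hd _ _ (by omega) (by omega)
        exact dt_vis2 (strict := strict) (n := n) (s := .td μ c (fn m (y / 3 - r1)))
          (q := .td μ c (fn m ((y + 1) / 3 - r1)))
          (q' := .te μ c ((y / 3 / (m * m)).testBit (y / 3 % (m * m))) (fn m (y / 3 - r1)))
          (p := o + y) (τ := τ) (S := S) (b := lay m y) (by omega) (by omega) g2 (by
            left
            rw [g1, h2]
            show [_, (St.td μ c (inc (fn m (y / 3 - r1))), Wk.d _, true)] = _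
            rw [inc_fn]
            have h7 : y / 3 - r1 + 1 = (y + 1) / 3 - r1 := by omega
            rw [h7]) (by rw [g1]; rfl) hte
      · obtain ⟨h2, h3, _⟩ := h
        have hstep := dt_y (strict := strict) hV ho hP (s := .td μ c (fn m (y / 3 - r1)))
          (q := .td μ c (fn m (y / 3 - r1))) (y := y) (d := true) hyP (by rw [h2]; rfl)
        rw [if_pos rfl] at hstep
        have h7 : (y + 1) / 3 = y / 3 := by omega
        rw [h7]
        exact hstep
      · exfalso
        obtain ⟨_, h3, _, _, h5, _⟩ := h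
        unfold ci at h5
        omega
      · exfalso
        obtain ⟨_, h3, _, _, h5, _⟩ := h
        unfold ci at h5
        omega
  have h8 := hgo (3 * (e % m) + 1) (by omega)
  have h9 : 3 * r1 + 1 + (3 * (e % m) + 1) = 3 * (e - m * m) + 2 := by omega
  rw [h9] at h8
  have h10 : (3 * (e - m * m) + 2) / 3 = e - m * m := by omega
  rw [h10] at h8
  have h11 : e - m * m - r1 = e % m := by omega
  rw [h11] at h8
  refine h8.trans ?_
  obtain ⟨g1, g2⟩ := hV (3 * (e - m * m) + 2) (by omega)
  have hlay : lay m (3 * (e - m * m) + 2) =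
      .d (((e - m * m) / (m * m)).testBit ((e - m * m) % (m * m))) := by
    unfold lay
    rw [if_neg (by omega), if_neg (by omega), h10]
  have hdd := hdead (3 * (r1 + m) - (3 * (e - m * m) + 3)) (3 * (e - m * m) + 3) (by omega) le_rfl
  have h12 : (3 * (e - m * m) + 3) / 3 - r1 = e % m + 1 := by omega
  rw [h12] at hdd
  have hstep := dt_vis2 (strict := strict) (n := n) (s := .td μ c (fn m (e % m)))
    (q' := .td μ c (fn m (e % m + 1)))
    (q := .te μ c (((e - m * m) / (m * m)).testBit ((e - m * m) % (m * m))) (fn m (e % m)))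
    (p := o + (3 * (e - m * m) + 2)) (τ := τ) (S := S) (b := lay m (3 * (e - m * m) + 2))
    (by omega) (by omega) g2 (by
      right
      rw [g1, hlay]
      show [_, (St.td μ c (inc (fn m (e % m))), Wk.d _, true)] = _
      rw [inc_fn]) (by rw [g1]; rfl) hdd
  refine ReflTransGen.head hstep ?_
  exact walk_te.run hV ho hP (l := 3 * (e - m * m) + 3) (by omega)

end Pool.Agent.H720.CT
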