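import Mathlib
import Pool.Agent.H720.CT.Ph1

set_option autoImplicit false
set_option exponentiation.threshold 100000

/-!
From one new cell to the next one.
-/

namespace Pool.Agent.H720.CT

open Relation Pool.Agent.H630R2.LA Pool.Agent.H720.UV

variable {m : ℕ} {strict : Prop} {n : ℕ} {τ : ℕ → Sym Wk} {S : Set ℕ} {o P : ℕ}

/-- Fetching the digit of the previous block. -/
theorem fetch (hm : 1 ≤ m) (hV : Vz m τ S o P) (ho : 1 ≤ o) (hP : P ≤ n + 2) {e : ℕ}
    (hPe : o + 3 * e < P) (hk : m * m ≤ e) (μ : Md) (c : Bool)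
    (hd : ∀ x j', j' < m → j' ≠ e % m → DD m strict n (cf (.te μ c x (fn m j')) P τ S)) :
    ReflTransGen (DT m strict n)
      (cf (st1 (m := m) μ c (kd m e)).1 (o + (3 * e - 1)) τ S)
      (cf (.te μ c (((e - m * m) / (m * m)).testBit ((e - m * m) % (m * m))) (fn m (e % m)))
        P τ S) := by
  have hms := mm_pos hm
  have h1 := Nat.mod_le e (m * m)
  have hlt := ri_lt hm e
  have hdm := Nat.div_add_mod (e % (m * m)) m
  rw [mod_mod_mul] at hdm
  -- from `tb`
  have hB : ReflTransGen (DT m strict n)
      (cf (.tb μ c (fn m (e % (m * m) / m))) (o + (3 * (e - e % (m * m)) - 1)) τ S)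
      (cf (.te μ c (((e - m * m) / (m * m)).testBit ((e - m * m) % (m * m))) (fn m (e % m)))
        P τ S) := by
    refine (phase_tb hm hV ho hP hPe hk μ c _ (by omega)).trans ?_
    have htd := phase_td (strict := strict) hm hV ho hP hPe hk μ c hd
    by_cases hi : e % (m * m) / m = 0
    · rw [if_pos hi]
      rw [hi, Nat.mul_zero, Nat.zero_add] at hdm
      have h2 : e - m * m - e % m = e - e % (m * m) - m * m := by omega
      rw [h2] at htd
      exact htd
    · rw [if_neg hi]
      have hdv := Nat.div_add_mod e (m * m)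
      have h5 : 1 ≤ e / (m * m) := Nat.div_pos hk (by omega)
      have hge : m * m ≤ m * m * (e / (m * m)) := Nat.le_mul_of_pos_right _ h5
      refine (phase_tc hm hV ho hP hPe hk μ c _ hlt (Nat.pos_of_ne_zero hi)).trans ?_
      have h2 : e - m * m - e % m = e - e % (m * m) - m * m + m * (e % (m * m) / m) := by omega
      rw [h2] at htd
      exact htd
  by_cases hD : e % (m * m) = 0
  · have hkd : kd m e = .blk := by unfold kd; rw [if_pos hD]
    rw [hkd]
    rw [hD, Nat.zero_div, Nat.sub_zero] at hB
    exact hB
  · have hA := phase_ta (strict := strict) hm hV ho hP hPe hD hk μ c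
    have he3 : 3 * e / 3 = e := by omega
    have hrie : ri m (3 * e) = e % (m * m) / m := by unfold ri; rw [he3]
    have hcie : ci m (3 * e) = e % m := by unfold ci; rw [he3]
    have hfin : (st1 (m := m) μ c (kd m e)).1 =
        .ta μ c (fn m (e % (m * m) / m - ri m (3 * e - 1))) := by
      rcases left_cases hm (3 * e) (by omega) with h | h | h | h | h
      · omega
      · omega
      · obtain ⟨h2, _, _, h3, _⟩ := h
        have hkd : kd m e = .mid := by
          unfold lay at h2
          rw [if_pos (by omega), he3] at h2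
          injection h2
        rw [hkd]
        show St.ta μ c (fn m 0) = _
        rw [h3, hrie, Nat.sub_self]
      · obtain ⟨h2, _, _, h3, _⟩ := h
        have hkd : kd m e = .row := by
          unfold lay at h2
          rw [if_pos (by omega), he3] at h2
          injection h2
        rw [hkd]
        show St.ta μ c (fn m 1) = _
        have h4 : e % (m * m) / m - ri m (3 * e - 1) = 1 := by
          rw [← hrie]; omega
        rw [h4]
      · obtain ⟨_, _, _, _, _, _, h4⟩ := h
        rw [he3] at h4
        exact absurd h4 hD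
    rw [hfin]
    exact hA.trans hB

/-! ### The tapes -/

/-- The tape when the cells before `P` have been visited and the counter starts at `o`. -/
def tp (m : ℕ) (w : List Bool) (o P : ℕ) : ℕ → Sym Wk := fun x =>
  if x = 0 then .lm else if x < P then (if x < o then .sym .b else .sym (lay m (x - o)))
  else initTape (Mc m) w x

def sn (P : ℕ) : Set ℕ := {x | 1 ≤ x ∧ x < P}

theorem sn_insert {P : ℕ} (hP : 1 ≤ P) : insert P (sn P) = sn (P + 1) := by
  ext x
  simp only [sn, Set.mem_insert_iff, Set.mem_setOf_eq]
  omega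

theorem not_mem_sn (P : ℕ) : P ∉ sn P := by
  simp [sn]

theorem vz_tp {w : List Bool} (ho : 1 ≤ o) {P' : ℕ} (hP' : P ≤ P') :
    Vz m (tp m w o P) (sn P') o P := by
  intro y hy
  constructor
  · unfold tp
    rw [if_neg (by omega), if_pos hy, if_neg (by omega), Nat.add_sub_cancel_left]
  · exact ⟨by omega, by omega⟩

theorem tp_raw {w : List Bool} {x : ℕ} (h1 : P ≤ x) (h2 : 1 ≤ x) (h3 : x ≤ w.length) :
    ∃ a, w[x - 1]? = some a ∧ tp m w o P x = .sym (.raw a) := by
  obtain ⟨y, rfl⟩ : ∃ y, x = y + 1 := ⟨x - 1, by omega⟩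
  refine ⟨w[y]'(by omega), ?_, ?_⟩
  · rw [Nat.add_sub_cancel]
    exact List.getElem?_eq_getElem (by omega)
  · unfold tp
    rw [if_neg (by omega), if_neg (by omega)]
    simp only [initTape, List.getElem?_eq_getElem (show y < w.length by omega)]
    rfl

theorem tp_rm {w : List Bool} (h1 : P ≤ w.length + 1) : tp m w o P (w.length + 1) = .rm := by
  unfold tp
  rw [if_neg (by omega), if_neg (by omega)]
  simp only [initTape, List.getElem?_eq_none (le_refl w.length)]
  rfl

theorem tp_update {w : List Bool} (ho : o ≤ P) (hP : 1 ≤ P) :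
    Function.update (tp m w o P) P (.sym (lay m (P - o))) = tp m w o (P + 1) := by
  funext x
  by_cases hx : x = P
  · subst hx
    rw [Function.update_self]
    unfold tp
    rw [if_neg (by omega), if_pos (by omega), if_neg (by omega)]
  · rw [Function.update_of_ne hx]
    unfold tp
    by_cases h0 : x = 0
    · rw [if_pos h0, if_pos h0]
    · rw [if_neg h0, if_neg h0]
      by_cases h1 : x < P
      · rw [if_pos h1, if_pos (show x < P + 1 by omega)]
      · rw [if_neg h1, if_neg (show ¬ x < P + 1 by omega)]

theorem tp_update_rm {w : List Bool} (h1 : P ≤ w.length + 1) :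
    Function.update (tp m w o P) (w.length + 1) .rm = tp m w o P := by
  have h := tp_rm (m := m) (o := o) h1
  rw [← h]
  exact Function.update_eq_self _ _

theorem org_tp {w : List Bool} (ho1 : 1 ≤ o) (ho : o < P) : org (tp m w o P) = o := by
  have hmem : o ∈ {x | 1 ≤ x ∧ tp m w o P x = .sym (.a .blk)} := by
    refine ⟨ho1, ?_⟩
    unfold tp
    rw [if_neg (by omega), if_pos ho, if_neg (by omega), Nat.sub_self, lay_zero]
  refine le_antisymm (Nat.sInf_le hmem) (le_csInf ⟨o, hmem⟩ ?_)
  rintro x ⟨hx1, hx2⟩
  by_contra hlt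
  have hxo : x < o := by omega
  unfold tp at hx2
  rw [if_neg (by omega), if_pos (by omega), if_pos hxo] at hx2
  cases hx2

/-- A step on a new cell with a letter. -/
theorem dt_raw {w : List Bool} (ho1 : 1 ≤ o) (ho : o < P) (hPn : P ≤ w.length) {s q : St m}
    {d : Bool} (h : ∀ a, ntr s (.sym (.raw a)) = [(q, lay m (P - o), d)]) :
    DT m strict w.length (cf s P (tp m w o P) (sn P))
      (cf q (if d = true then P + 1 else P - 1) (tp m w o (P + 1)) (sn (P + 1))) := by
  have hP : 1 ≤ P := by omega
  obtain ⟨a, _, h2⟩ := tp_raw (m := m) (o := o) (P := P) le_rfl hP hPn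
  have := dt_new (strict := strict) (n := w.length) (s := s) (q := q) (p := P)
    (τ := tp m w o P) (S := sn P) (b := lay m (P - o)) (d := d) (by omega) hP (not_mem_sn P)
    (by rw [h2]; exact h a) (fun _ _ => by rw [org_tp ho1 ho])
  rw [h2] at this
  have h3 : (Sym.sym (Wk.raw a)).rewrite (lay m (P - o)) = .sym (lay m (P - o)) := rfl
  rw [h3, tp_update (by omega) hP, sn_insert hP] at this
  exact this

/-- A step on the right end-marker. -/
theorem dt_rm {w : List Bool} (hP : P = w.length + 1) {s q : St m}
    {d : Bool} {b : Wk} (h : ntr s .rm = [(q, b, d)]) :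
    DT m strict w.length (cf s P (tp m w o P) (sn P))
      (cf q (if d = true then P + 1 else P - 1) (tp m w o P) (sn (P + 1))) := by
  subst hP
  have h2 := tp_rm (m := m) (o := o) (w := w) le_rfl
  have := dt_new (strict := strict) (n := w.length) (s := s) (q := q) (p := w.length + 1)
    (τ := tp m w o (w.length + 1)) (S := sn (w.length + 1)) (b := b) (d := d) (by omega)
    (by omega) (not_mem_sn _) (by rw [h2]; exact h) (fun h' => by omega)
  rw [h2] at this
  have h3 : (Sym.rm : Sym Wk).rewrite b = .rm := rfl
  rw [h3, tp_update_rm le_rfl, sn_insert (by omega)] at this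
  exact this

theorem dead_raw {w : List Bool} (hP : 1 ≤ P) (hPn : P ≤ w.length) {s : St m}
    (h : ∀ a, ntr s (.sym (.raw a)) = []) :
    DD m strict w.length (cf s P (tp m w o P) S) := by
  obtain ⟨a, _, h2⟩ := tp_raw (m := m) (o := o) (P := P) le_rfl hP hPn
  exact dead_stuck (by omega) (by rw [h2]; exact h a)

theorem dead_rm {w : List Bool} (hP : P = w.length + 1) {s : St m} (h : ntr s .rm = []) :
    DD m strict w.length (cf s P (tp m w o P) S) := by
  subst hP
  have h2 := tp_rm (m := m) (o := o) (w := w) le_rfl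
  exact dead_stuck (by omega) (by rw [h2]; exact h)

/-- A wrong column is noticed. -/
theorem dead_te {w : List Bool} (hm : 1 ≤ m) (ho : 1 ≤ o) {e : ℕ} (hP : P = o + 3 * e + 1)
    (hPn : P ≤ w.length + 1) (μ : Md) (c x : Bool) {j' : ℕ} (hj : j' ≤ m) (hj' : j' ≠ e % m) :
    DD m strict w.length (cf (.te μ c x (fn m j')) P (tp m w o P) (sn P)) := by
  have hPo : P - 1 = o + 3 * e := by omega
  rcases Nat.lt_or_ge w.length P with h | h
  · cases μ with
    | U =>
      have hstep := dt_rm (strict := strict) (m := m) (o := o) (w := w) (P := P) (by omega)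
        (s := .te .U c x (fn m j')) (q := .ua .U c x (fn m j')) (d := false) (b := .b) rfl
      rw [if_neg Bool.false_ne_true, hPo] at hstep
      exact Dt.dead hstep (dead_ua hm (vz_tp ho (by omega)) ho (by omega) (by omega) _ c x hj hj')
    | M z => exact dead_rm (by omega) rfl
  · have hlay : lay m (P - o) = .b := by
      unfold lay
      rw [if_neg (by omega), if_pos (by omega)]
    have hstep := dt_raw (strict := strict) (m := m) (o := o) (w := w) (P := P) (by omega)
      (by omega) h (s := .te μ c x (fn m j')) (q := .ua μ c x (fn m j')) (d := false)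
      (by intro a; rw [hlay]; rfl)
    rw [if_neg Bool.false_ne_true, hPo] at hstep
    exact Dt.dead hstep (dead_ua hm (vz_tp ho le_rfl) ho (by omega) (by omega) _ c x hj hj')

/-! ### The states in which new cells are entered -/

/-- The number to which the machine counts. -/
def NN (m : ℕ) : ℕ := 3 * (m * m * (2 ^ (m * m) + 1))

def ast (m : ℕ) (μ : Md) (T : ℕ) : St m :=
  if T % 3 = 0 then .arr μ (decide (T / 3 / (m * m) = 0))
    (cr (T / 3 / (m * m)) (T / 3 % (m * m))) (kd m (T / 3))
  else if T % 3 = 1 then (if T / 3 / (m * m) = 0 then .fb μ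
    else .te μ (cr (T / 3 / (m * m)) (T / 3 % (m * m)))
      ((T / 3 / (m * m) - 1).testBit (T / 3 % (m * m))) (fn m (T / 3 % m)))
  else (if T / 3 / (m * m) = 0 then .fd μ
    else .ub μ (cr (T / 3 / (m * m)) (T / 3 % (m * m)))
      ((T / 3 / (m * m) - 1).testBit (T / 3 % (m * m))))

def ast' (m : ℕ) (μ : Md) (T : ℕ) : St m := if NN m ≤ T then .wr μ else ast m μ T

theorem ast'_lt {μ : Md} {T : ℕ} (h : T < NN m) : ast' m μ T = ast m μ T := by
  unfold ast'
  rw [if_neg (by omega)]

/-- The state behind a digit. -/
theorem aft_eq (hm : 1 ≤ m) (μ : Md) {e : ℕ} (he : 3 * e + 2 < NN m) :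
    aft m μ (decide (e / (m * m) = 0)) (cr (e / (m * m)) (e % (m * m) + 1)) e =
      ast' m μ (3 * e + 3) := by
  have hms := mm_pos hm
  have hdv := Nat.div_add_mod e (m * m)
  have hD := Nat.mod_lt e (show 0 < m * m by omega)
  have hdm := Nat.div_add_mod (e % (m * m)) m
  have hj := Nat.mod_lt e (show 0 < m by omega)
  rw [mod_mod_mul] at hdm
  have hlt := ri_lt hm e
  have h3 : (3 * e + 3) % 3 = 0 := by omega
  have h4 : (3 * e + 3) / 3 = e + 1 := by omega
  have hast : ast m μ (3 * e + 3) = .arr μ (decide ((e + 1) / (m * m) = 0))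
      (cr ((e + 1) / (m * m)) ((e + 1) % (m * m))) (kd m (e + 1)) := by
    unfold ast
    rw [if_pos h3, h4]
  have hNN : NN m = 3 * (m * m * 2 ^ (m * m) + m * m) := by
    unfold NN
    ring
  unfold aft fin
  obtain ⟨i, hi0⟩ : ∃ i, e % (m * m) / m = i := ⟨_, rfl⟩
  obtain ⟨k, hk0⟩ : ∃ k, e / (m * m) = k := ⟨_, rfl⟩
  obtain ⟨D, hD0⟩ : ∃ D, e % (m * m) = D := ⟨_, rfl⟩
  obtain ⟨j, hj0⟩ : ∃ j, e % m = j := ⟨_, rfl⟩
  obtain ⟨X, hX⟩ : ∃ X, 2 ^ (m * m) = X := ⟨_, rfl⟩
  rw [hi0] at hdm hlt ⊢
  clear hi0
  rw [hk0, hD0] at hdv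
  rw [hk0, hD0, hj0]
  rw [hD0] at hD
  rw [hD0, hj0] at hdm
  rw [hj0] at hj
  rw [hX] at hNN
  have hXpos : 0 < X := by rw [← hX]; exact Nat.two_pow_pos _
  have hek : e = m * m * k + D := hdv.symm
  by_cases hfull : D + 1 = m * m
  · -- the end of the block
    have hji : m * (i + 1) = m * m + (m - 1 - j) := by
      rw [Nat.mul_add, Nat.mul_one]
      omega
    have hi : i + 1 = m := by
      by_contra hne
      have h5 : i + 1 < m := by omega
      have h6 : m * (i + 1) < m * m := Nat.mul_lt_mul_of_pos_left h5 (by omega)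
      omega
    have hjm : j + 1 = m := by
      rw [hi] at hji
      omega
    have h5 : e + 1 = m * m * (k + 1) := by
      rw [Nat.mul_add, Nat.mul_one]
      omega
    have h6 : (e + 1) / (m * m) = k + 1 := by
      rw [h5, Nat.mul_div_cancel_left _ (by omega)]
    have h7 : (e + 1) % (m * m) = 0 := by
      rw [h5, Nat.mul_mod_right]
    have hkd : kd m (e + 1) = .blk := by unfold kd; rw [if_pos h7]
    have hklt : m * m * k < m * m * (X + 1) := by
      rw [Nat.mul_add, Nat.mul_one]
      rw [hNN] at he
      omega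
    have hk : k < X + 1 := Nat.lt_of_mul_lt_mul_left hklt
    have hval : (fn m (i + 1)).val = m := by rw [hi]; exact fn_val le_rfl
    rw [if_pos hjm, hval, if_pos rfl]
    have h9 : NN m ≤ 3 * e + 3 ↔ k = X := by
      have h10 : 3 * e + 3 = 3 * (m * m * k + m * m) := by omega
      rw [hNN, h10]
      constructor
      · intro h11
        have h12 : m * m * X ≤ m * m * k := by omega
        have h13 := Nat.le_of_mul_le_mul_left h12 (by omega)
        omega
      · intro h11
        rw [h11]
    rw [hfull]
    by_cases hk0 : k = 0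
    · rw [decide_eq_true hk0, if_pos rfl]
      unfold ast'
      rw [if_neg (by rw [h9]; omega), hast, h6, h7, hkd, cr_zero,
        decide_eq_false (Nat.succ_ne_zero k)]
    · rw [decide_eq_false hk0, if_neg Bool.false_ne_true]
      have hcf := cr_full (k := k) (s := m * m) (by rw [hX]; omega)
      rw [hX] at hcf
      by_cases hk1 : k = X
      · rw [if_pos (hcf.2 hk1)]
        unfold ast'
        rw [if_pos (h9.2 hk1)]
      · rw [if_neg (by rw [hcf]; exact hk1)]
        unfold ast'
        rw [if_neg (by rw [h9]; exact hk1), hast, h6, h7, hkd, cr_zero,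
          decide_eq_false (Nat.succ_ne_zero k)]
  · have h6 : e + 1 = m * m * k + (D + 1) := by omega
    have h5 : (e + 1) / (m * m) = k := by
      rw [h6, Nat.mul_add_div (by omega), Nat.div_eq_of_lt (by omega), Nat.add_zero]
    have h7 : (e + 1) % (m * m) = D + 1 := by
      rw [h6, Nat.mul_add_mod, Nat.mod_eq_of_lt (by omega)]
    have hnn : ¬ NN m ≤ 3 * e + 3 := by
      rw [hNN]
      intro h8
      have h9 : e + 1 = m * m * X + m * m := by
        rw [hNN] at he
        omega
      have h10 : (e + 1) % (m * m) = 0 := by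
        rw [h9, Nat.add_mod_right, Nat.mul_mod_right]
      omega
    unfold ast'
    rw [if_neg hnn, hast, h5, h7]
    by_cases hjm : j + 1 = m
    · have h6 : (e + 1) % m = 0 := by
        have h8 := Nat.div_add_mod e m
        have h9 : e + 1 = m * (e / m + 1) := by
          rw [Nat.mul_add, Nat.mul_one]
          omega
        rw [h9, Nat.mul_mod_right]
      have hkd : kd m (e + 1) = .row := by
        unfold kd
        rw [if_neg (by omega), if_pos h6]
      have hi : i + 1 ≠ m := by
        intro hi
        have h8 : m * (i + 1) = m * m := by rw [hi]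
        rw [Nat.mul_add, Nat.mul_one] at h8
        omega
      rw [if_pos hjm, fn_val (by omega), if_neg hi, hkd]
    · have h6 : (e + 1) % m ≠ 0 := by
        have h8 := Nat.div_add_mod e m
        have h9 : e + 1 = m * (e / m) + (j + 1) := by omega
        rw [h9, Nat.mul_add_mod, Nat.mod_eq_of_lt (by omega)]
        omega
      have hkd : kd m (e + 1) = .mid := by
        unfold kd
        rw [if_neg (by omega), if_neg h6]
      rw [if_neg hjm, hkd]

/-- The machine enters the next new cell. -/
theorem adv (hm : 1 ≤ m) {w : List Bool} (ho : 1 ≤ o) (μ : Md) {T : ℕ} (hT1 : 1 ≤ T)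
    (hT : T < NN m)
    (hn : o + T ≤ w.length) :
    ReflTransGen (DT m strict w.length)
      (cf (ast m μ T) (o + T) (tp m w o (o + T)) (sn (o + T)))
      (cf (ast' m μ (T + 1)) (o + T + 1) (tp m w o (o + T + 1)) (sn (o + T + 1))) := by
  have hms := mm_pos hm
  have hsub : o + T - o = T := by omega
  have hr : T % 3 = 0 ∨ T % 3 = 1 ∨ T % 3 = 2 := by omega
  rcases hr with hr | hr | hr
  · -- the first cell of a digit
    obtain ⟨e, rfl⟩ : ∃ e, T = 3 * e := ⟨T / 3, by omega⟩
    have h3 : 3 * e / 3 = e := by omega
    have h4 : (3 * e + 1) % 3 = 1 := by omega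
    have h5 : (3 * e + 1) / 3 = e := by omega
    have hN : 3 * e + 1 < NN m := by unfold NN at *; omega
    have hlay : lay m (o + 3 * e - o) = .a (kd m e) := by
      rw [hsub]
      unfold lay
      rw [if_pos hr, h3]
    rw [ast'_lt hN]
    unfold ast
    rw [if_pos hr, h3, h4, h5, if_neg (by omega), if_pos rfl]
    by_cases hk : e / (m * m) = 0
    · rw [if_pos hk, decide_eq_true hk]
      have hstep := dt_raw (strict := strict) (m := m) (o := o) (w := w) (P := o + 3 * e)
        (by omega) (by omega) hn (s := .arr μ true (cr (e / (m * m)) (e % (m * m))) (kd m e))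
        (q := .fb μ) (d := true) (by intro a; rw [hlay]; rfl)
      rw [if_pos rfl] at hstep
      exact ReflTransGen.single hstep
    · rw [if_neg hk, decide_eq_false hk]
      have hke : m * m ≤ e := by
        by_contra hlt
        exact hk (Nat.div_eq_of_lt (by omega))
      have hstep := dt_raw (strict := strict) (m := m) (o := o) (w := w) (P := o + 3 * e)
        (by omega) (by omega) hn (s := .arr μ false (cr (e / (m * m)) (e % (m * m))) (kd m e))
        (q := (st1 (m := m) μ (cr (e / (m * m)) (e % (m * m))) (kd m e)).1) (d := false) (by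
          intro a
          rw [hlay]
          show [st1 (m := m) μ (cr (e / (m * m)) (e % (m * m))) (kd m e)] = _
          cases kd m e <;> rfl)
      rw [if_neg Bool.false_ne_true] at hstep
      refine ReflTransGen.head hstep ?_
      have h6 : o + 3 * e - 1 = o + (3 * e - 1) := by omega
      rw [h6]
      have h7 : (e - m * m) / (m * m) = e / (m * m) - 1 := by
        obtain ⟨t, ht⟩ : ∃ t, e = t + m * m := ⟨e - m * m, by omega⟩
        rw [ht, Nat.add_sub_cancel, Nat.add_div_right _ (by omega)]
        rfl
      have h8 : (e - m * m) % (m * m) = e % (m * m) := by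
        obtain ⟨t, ht⟩ : ∃ t, e = t + m * m := ⟨e - m * m, by omega⟩
        rw [ht, Nat.add_sub_cancel, Nat.add_mod_right]
      rw [← h7]
      have h9 := fetch (strict := strict) (n := w.length) (P := o + 3 * e + 1)
        (τ := tp m w o (o + 3 * e + 1)) (S := sn (o + 3 * e + 1)) (o := o) (e := e) hm
        (vz_tp ho le_rfl) ho (by omega) (by omega) hke μ (cr (e / (m * m)) (e % (m * m))) (by
          intro x j' g1 g2
          exact dead_te hm ho rfl (by omega) _ _ _ (by omega) g2)
      rw [h8] at h9
      rw [h7] at h9 ⊢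
      exact h9
  · -- the second cell
    obtain ⟨e, rfl⟩ : ∃ e, T = 3 * e + 1 := ⟨T / 3, by omega⟩
    have h5 : (3 * e + 1) / 3 = e := by omega
    have h4 : (3 * e + 1 + 1) % 3 = 2 := by omega
    have h6 : (3 * e + 1 + 1) / 3 = e := by omega
    have hN : 3 * e + 1 + 1 < NN m := by unfold NN at *; omega
    have hlay : lay m (o + (3 * e + 1) - o) = .b := by
      rw [hsub]
      unfold lay
      rw [if_neg (by omega), if_pos hr]
    rw [ast'_lt hN]
    unfold ast
    rw [if_neg (show ¬ (3 * e + 1) % 3 = 0 by omega), if_pos hr, h4,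
      if_neg (show ¬ (2 : ℕ) = 0 by omega), if_neg (show ¬ (2 : ℕ) = 1 by omega), h5, h6]
    by_cases hk : e / (m * m) = 0
    · rw [if_pos hk, if_pos hk]
      have hstep := dt_raw (strict := strict) (m := m) (o := o) (w := w) (P := o + (3 * e + 1))
        (by omega) (by omega) hn (s := .fb μ)
        (q := .fd μ) (d := true) (by intro a; rw [hlay]; rfl)
      rw [if_pos rfl] at hstep
      exact ReflTransGen.single hstep
    · rw [if_neg hk, if_neg hk]
      have hstep := dt_raw (strict := strict) (m := m) (o := o) (w := w) (P := o + (3 * e + 1))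
        (by omega) (by omega) hn
        (s := .te μ (cr (e / (m * m)) (e % (m * m))) ((e / (m * m) - 1).testBit (e % (m * m)))
          (fn m (e % m)))
        (q := .ua μ (cr (e / (m * m)) (e % (m * m))) ((e / (m * m) - 1).testBit (e % (m * m)))
          (fn m (e % m))) (d := false) (by intro a; rw [hlay]; rfl)
      rw [if_neg Bool.false_ne_true] at hstep
      refine ReflTransGen.head hstep ?_
      have h7 : o + (3 * e + 1) - 1 = o + 3 * e := by omega
      rw [h7]
      exact phase_ua hm (vz_tp ho le_rfl) ho (by omega) (by omega) _ _ _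
  · -- the third cell
    obtain ⟨e, rfl⟩ : ∃ e, T = 3 * e + 2 := ⟨T / 3, by omega⟩
    have h5 : (3 * e + 2) / 3 = e := by omega
    have hlay : lay m (o + (3 * e + 2) - o) = .d ((e / (m * m)).testBit (e % (m * m))) := by
      rw [hsub]
      unfold lay
      rw [if_neg (by omega), if_neg (by omega), h5]
    have haft := aft_eq hm μ (e := e) hT
    have h8 : 3 * e + 2 + 1 = 3 * e + 3 := by omega
    rw [h8, ← haft]
    unfold ast
    rw [if_neg (show ¬ (3 * e + 2) % 3 = 0 by omega), if_neg (show ¬ (3 * e + 2) % 3 = 1 by omega),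
      h5]
    have h7 : o + (3 * e + 2) - 1 = o + (3 * e + 1) := by omega
    by_cases hk : e / (m * m) = 0
    · rw [if_pos hk]
      have hstep := dt_raw (strict := strict) (m := m) (o := o) (w := w) (P := o + (3 * e + 2))
        (by omega) (by omega) hn (s := .fd μ)
        (q := .va μ true false (fn m 1)) (d := false) (by
          intro a
          rw [hlay, hk, Nat.zero_testBit]
          rfl)
      rw [if_neg Bool.false_ne_true, h7] at hstep
      refine ReflTransGen.head hstep ?_
      have h9 : cr (e / (m * m)) (e % (m * m) + 1) = false := by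
        rw [hk]
        unfold cr
        simp
      rw [h9, decide_eq_true hk]
      exact phase_va hm (vz_tp ho le_rfl) ho (by omega) (by omega) _ _ _
    · rw [if_neg hk]
      obtain ⟨k, hk'⟩ := Nat.exists_eq_succ_of_ne_zero hk
      rw [Nat.succ_eq_add_one] at hk'
      rw [hk'] at hlay ⊢
      rw [Nat.add_sub_cancel, decide_eq_false (Nat.succ_ne_zero k), cr_succ]
      have hstep := dt_raw (strict := strict) (m := m) (o := o) (w := w) (P := o + (3 * e + 2))
        (by omega) (by omega) hn (s := .ub μ (cr (k + 1) (e % (m * m))) (k.testBit (e % (m * m))))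
        (q := .va μ false (cr (k + 1) (e % (m * m)) && k.testBit (e % (m * m))) (fn m 1))
        (d := false) (by
          intro a
          rw [hlay, digit_succ]
          rfl)
      rw [if_neg Bool.false_ne_true, h7] at hstep
      refine ReflTransGen.head hstep ?_
      exact phase_va hm (vz_tp ho le_rfl) ho (by omega) (by omega) _ _ _

end Pool.Agent.H720.CT
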