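import Mathlib
import Pool.Agent.H720.CT.Adv

set_option autoImplicit false
set_option exponentiation.threshold 100000

/-!
The language of the machine; it is unambiguous and self-verifying.
-/

namespace Pool.Agent.H720.CT

open Relation Pool.Agent.H630R2.LA Pool.Agent.H720.UV

variable {m : ℕ} {strict : Prop} {o P : ℕ} {w : List Bool}

/-- The configuration in which the cell `o + T` is entered. -/
def ct (m : ℕ) (w : List Bool) (μ : Md) (o T : ℕ) : Cfg (Mc m) :=
  cf (ast' m μ T) (o + T) (tp m w o (o + T)) (sn (o + T))

theorem NN_ge (hm : 1 ≤ m) : 6 ≤ NN m := by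
  unfold NN
  have h1 : 1 ≤ 2 ^ (m * m) := Nat.one_le_two_pow
  have h2 : 1 * 2 ≤ m * m * (2 ^ (m * m) + 1) := Nat.mul_le_mul (mm_pos hm) (by omega)
  omega

theorem run_ct (hm : 1 ≤ m) (ho : 1 ≤ o) (μ : Md) {T T' : ℕ} (hT1 : 1 ≤ T) (h : T ≤ T')
    (hT : T' ≤ NN m)
    (hn : o + T' ≤ w.length + 1) :
    ReflTransGen (DT m strict w.length) (ct m w μ o T) (ct m w μ o T') := by
  induction T', h using Nat.le_induction with
  | base => exact ReflTransGen.refl
  | succ T' hle ih =>
    refine (ih (by omega) (by omega)).trans ?_
    have h1 := adv (strict := strict) hm (w := w) ho μ (T := T') (by omega) (by omega) (by omega)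
    unfold ct
    rw [ast'_lt (by omega)]
    exact h1

theorem ct_one (hm : 1 ≤ m) (μ : Md) :
    ct m w μ o 1 = cf (.fb μ) (o + 1) (tp m w o (o + 1)) (sn (o + 1)) := by
  have h := NN_ge hm
  have h1 : ast' m μ 1 = .fb μ := by
    rw [ast'_lt (by omega)]
    unfold ast
    rw [if_neg (by omega), if_pos (by omega)]
    have h2 : 1 / 3 / (m * m) = 0 := by
      show 0 / (m * m) = 0
      exact Nat.zero_div _
    rw [if_pos h2]
  unfold ct
  rw [h1]

/-- Words which are too long for the counter. -/
theorem dead_long (hm : 1 ≤ m) (ho : 1 ≤ o) (μ : Md) (h : o + NN m ≤ w.length) :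
    DD m strict w.length (ct m w μ o 1) := by
  have h1 := NN_ge hm
  apply dead_of_dts (run_ct hm ho μ le_rfl (show 1 ≤ NN m by omega) le_rfl (by omega))
  unfold ct ast'
  rw [if_pos le_rfl]
  exact dead_raw (by omega) h (fun _ => rfl)

theorem dead_U_end (hm : 1 ≤ m) (ho : 1 ≤ o) (h : o + NN m = w.length + 1) :
    DD m strict w.length (ct m w .U o 1) := by
  have h1 := NN_ge hm
  apply dead_of_dts (run_ct hm ho .U le_rfl (show 1 ≤ NN m by omega) le_rfl (by omega))
  unfold ct ast'
  rw [if_pos le_rfl]
  exact dead_rm h rfl

theorem dead_short (hm : 1 ≤ m) (ho : 1 ≤ o) (hol : o ≤ w.length) (x : Bool)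
    (h : w.length + 1 < o + NN m) : DD m strict w.length (ct m w (.M x) o 1) := by
  have h1 := NN_ge hm
  apply dead_of_dts (run_ct hm ho (.M x) (T' := w.length + 1 - o) le_rfl (by omega) (by omega) (by omega))
  unfold ct
  rw [ast'_lt (by omega)]
  apply dead_rm (by omega)
  unfold ast
  split_ifs <;> rfl

theorem uniq_end {x : Bool} {τ : ℕ → Sym Wk} {S : Set ℕ} :
    Uniq (RR m strict w.length) (HA m w.length) (cf (.ac x) (w.length + 2) τ S)
      (cf (.ac x) (w.length + 2) τ S) := by
  apply Uniq.halt
  · exact Or.inl ⟨rfl, x, rfl⟩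
  · intro y hy
    rw [step_cf] at hy
    omega

/-- The answer in the marked mode. -/
theorem uniq_M (hm : 1 ≤ m) (ho : 1 ≤ o) (x : Bool) (h : o + NN m = w.length + 1) :
    ∃ c', c'.state = St.ac x ∧ Uniq (RR m strict w.length) (HA m w.length) (ct m w (.M x) o 1)
      c' := by
  have h1 := NN_ge hm
  refine ⟨cf (.ac x) (w.length + 2) (tp m w o (o + NN m)) (sn (o + NN m + 1)), rfl, ?_⟩
  apply uniq_of_dts (run_ct hm ho (.M x) le_rfl (show 1 ≤ NN m by omega) le_rfl (by omega))
  have hstep := dt_rm (strict := strict) (m := m) (o := o) (w := w) (P := o + NN m) h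
    (s := .wr (.M x)) (q := .ac x) (b := .b) (d := true) rfl
  rw [if_pos rfl] at hstep
  have h2 : ct m w (.M x) o (NN m) =
      cf (.wr (.M x)) (o + NN m) (tp m w o (o + NN m)) (sn (o + NN m)) := by
    unfold ct ast'
    rw [if_pos le_rfl]
  rw [h2]
  apply hstep.uniq
  have h3 : o + NN m + 1 = w.length + 2 := by omega
  rw [h3]
  exact uniq_end

/-- The answer in the unmarked mode. -/
theorem uniq_U (hm : 1 ≤ m) (h : w.length < NN m) (hw : 1 ≤ w.length) :
    ∃ c', c'.state = St.ac false ∧ Uniq (RR m strict w.length) (HA m w.length) (ct m w .U 1 1)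
      c' := by
  have h1 := NN_ge hm
  have hrun := run_ct (strict := strict) (w := w) hm (o := 1) le_rfl .U
    (T := 1) (T' := w.length) le_rfl hw (by omega) (by omega)
  have key : ∃ c', c'.state = St.ac false ∧
      Uniq (RR m strict w.length) (HA m w.length) (ct m w .U 1 w.length) c' := by
    have hP : 1 + w.length = w.length + 1 := by omega
    unfold ct
    rw [ast'_lt h]
    -- states which answer at once
    have hrej : ∀ s : St m, ntr s .rm = [(.ac false, .b, true)] →
        ∃ c' : Cfg (Mc m), c'.state = St.ac false ∧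
          Uniq (RR m strict w.length) (HA m w.length)
            (cf s (1 + w.length) (tp m w 1 (1 + w.length)) (sn (1 + w.length))) c' := by
      intro s hs
      refine ⟨cf (.ac false) (w.length + 2) (tp m w 1 (1 + w.length)) (sn (1 + w.length + 1)),
        rfl, ?_⟩
      have hstep := dt_rm (strict := strict) (m := m) (o := 1) (w := w) (P := 1 + w.length) hP
        (s := s) (q := .ac false) (b := .b) (d := true) hs
      rw [if_pos rfl] at hstep
      apply hstep.uniq
      have h3 : 1 + w.length + 1 = w.length + 2 := by omega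
      rw [h3]
      exact uniq_end
    unfold ast
    split_ifs with g1 g2 g3 g4
    · exact hrej _ rfl
    · exact hrej _ rfl
    · -- the column has to be verified
      obtain ⟨e, he⟩ : ∃ e, w.length = 3 * e + 1 := ⟨w.length / 3, by omega⟩
      have he3 : w.length / 3 = e := by omega
      rw [he3]
      generalize cr (e / (m * m)) (e % (m * m)) = c
      generalize (e / (m * m) - 1).testBit (e % (m * m)) = x
      have hstep := dt_rm (strict := strict) (m := m) (o := 1) (w := w) (P := 1 + w.length) hP
        (s := .te .U c x (fn m (e % m))) (q := .ua .U c x (fn m (e % m))) (b := .b) (d := false)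
        rfl
      rw [if_neg Bool.false_ne_true] at hstep
      have h4 : 1 + w.length - 1 = 1 + 3 * e := by omega
      rw [h4] at hstep
      have hua := phase_ua (strict := strict) (n := w.length) (P := 1 + w.length)
        (τ := tp m w 1 (1 + w.length)) (S := sn (1 + w.length + 1)) (o := 1) (e := e) hm
        (vz_tp le_rfl (by omega)) le_rfl (by omega) (by omega) .U c x
      refine ⟨cf (.ac false) (w.length + 2) (tp m w 1 (1 + w.length)) (sn (1 + w.length + 1)),
        rfl, ?_⟩
      apply hstep.uniq
      apply uniq_of_dts hua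
      have hlast := dt_vis (strict := strict) (n := w.length) (m := m) (s := .ub .U c x)
        (q := .ac false) (p := 1 + w.length) (τ := tp m w 1 (1 + w.length))
        (S := sn (1 + w.length + 1)) (b := .b) (d := true) (by omega) (by omega)
        ⟨by omega, by omega⟩ (by
          have h5 := tp_rm (m := m) (o := 1) (P := 1 + w.length) (w := w) (by omega)
          have h6 : tp m w 1 (1 + w.length) (1 + w.length) = .rm := by
            rw [← h5]
            congr 1
          rw [h6]
          rfl) (by
          have h5 := tp_rm (m := m) (o := 1) (P := 1 + w.length) (w := w) (by omega)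
          have h6 : tp m w 1 (1 + w.length) (1 + w.length) = .rm := by
            rw [← h5]
            congr 1
          rw [h6]
          rfl)
      rw [if_pos rfl] at hlast
      apply hlast.uniq
      have h3 : 1 + w.length + 1 = w.length + 2 := by omega
      rw [h3]
      exact uniq_end
    · exact hrej _ rfl
    · exact hrej _ rfl
  obtain ⟨c', h2, h3⟩ := key
  exact ⟨c', h2, uniq_of_dts hrun h3⟩

/-! ### The idle mode -/

/-- The idle configuration. -/
def cv (m : ℕ) (w : List Bool) (s : St m) (x : ℕ) : Cfg (Mc m) :=
  cf s x (tp m w x x) (sn x)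

theorem tp_b (m : ℕ) (w : List Bool) {x : ℕ} (hx : 1 ≤ x) :
    Function.update (tp m w x x) x (.sym .b) = tp m w (x + 1) (x + 1) := by
  funext y
  by_cases hy : y = x
  · subst hy
    rw [Function.update_self]
    unfold tp
    rw [if_neg (by omega), if_pos (by omega), if_pos (by omega)]
  · rw [Function.update_of_ne hy]
    unfold tp
    by_cases h0 : y = 0
    · rw [if_pos h0, if_pos h0]
    · rw [if_neg h0, if_neg h0]
      by_cases h1 : y < x
      · rw [if_pos h1, if_pos h1, if_pos (show y < x + 1 by omega),
          if_pos (show y < x + 1 by omega)]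
      · rw [if_neg h1, if_neg (show ¬ y < x + 1 by omega)]

/-- The successors of the idle configuration. -/
theorem step_V {x : ℕ} (hx : 1 ≤ x) (hxn : x ≤ w.length) {a : Bool} (ha : w[x - 1]? = some a)
    (hm : 1 ≤ m) (y : Cfg (Mc m)) : RR m strict w.length (cv m w .V x) y ↔
      y = ct m w (.M a) x 1 ∨ y = cv m w .V (x + 1) := by
  obtain ⟨a', ha', htp⟩ := tp_raw (m := m) (o := x) (P := x) le_rfl hx hxn
  have haa : a' = a := by
    rw [ha] at ha'
    injection ha' with h
    exact h.symm
  subst haa
  have hA : nx (cv m w .V x) (St.fb (.M a')) (.a .blk) true = ct m w (.M a') x 1 := by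
    unfold cv
    rw [nx_new (not_mem_sn x), if_pos rfl, htp, ct_one hm]
    have h3 : (Sym.sym (Wk.raw a')).rewrite (.a .blk) = .sym (lay m (x - x)) := by
      rw [Nat.sub_self, lay_zero]
      rfl
    rw [h3, tp_update le_rfl hx, sn_insert hx]
  have hB : nx (cv m w .V x) (St.V) .b true = cv m w .V (x + 1) := by
    unfold cv
    rw [nx_new (not_mem_sn x), if_pos rfl, htp]
    have h3 : (Sym.sym (Wk.raw a')).rewrite .b = .sym .b := rfl
    rw [h3, tp_b m w hx, sn_insert hx]
  constructor
  · intro h
    unfold cv at h
    rw [step_cf] at h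
    obtain ⟨_, q, b, d, h1, _, _, rfl⟩ := h
    rw [htp] at h1
    have h2 : (q, b, d) = (St.fb (.M a'), .a .blk, true) ∨ (q, b, d) = (St.V, .b, true) := by
      have h4 : (q, b, d) ∈ [((St.fb (.M a') : St m), Wk.a .blk, true), (.V, .b, true)] := h1
      rw [List.mem_cons, List.mem_singleton] at h4
      exact h4
    rcases h2 with h2 | h2
    · obtain ⟨rfl, h3⟩ := Prod.mk.inj h2
      obtain ⟨rfl, rfl⟩ := Prod.mk.inj h3
      left
      exact hA
    · obtain ⟨rfl, h3⟩ := Prod.mk.inj h2
      obtain ⟨rfl, rfl⟩ := Prod.mk.inj h3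
      right
      exact hB
  · rintro (rfl | rfl)
    · rw [← hA]
      unfold cv
      rw [step_cf]
      refine ⟨by omega, _, _, _, ?_, fun _ h => absurd h (not_mem_sn x), fun _ => hx, rfl⟩
      rw [htp]
      show _ ∈ [((St.fb (.M a') : St m), Wk.a .blk, true), (.V, .b, true)]
      simp
    · rw [← hB]
      unfold cv
      rw [step_cf]
      refine ⟨by omega, _, _, _, ?_, fun _ h => absurd h (not_mem_sn x), fun _ => hx, rfl⟩
      rw [htp]
      show _ ∈ [((St.fb (.M a') : St m), Wk.a .blk, true), (.V, .b, true)]
      simp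

/-- The successors of the initial configuration. -/
theorem step_q0 (hw : 1 ≤ w.length) {a : Bool} (ha : w[0]? = some a)
    (hm : 1 ≤ m) (y : Cfg (Mc m)) : RR m strict w.length (cv m w .q0 1) y ↔
      y = ct m w .U 1 1 ∨ y = ct m w (.M a) 1 1 ∨ y = cv m w .V 2 := by
  obtain ⟨a', ha', htp⟩ := tp_raw (m := m) (o := 1) (P := 1) (w := w) le_rfl le_rfl hw
  have haa : a' = a := by
    rw [ha] at ha'
    injection ha' with h
    exact h.symm
  subst haa
  have hA : ∀ μ, nx (cv m w .q0 1) (St.fb μ) (.a .blk) true = ct m w μ 1 1 := by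
    intro μ
    unfold cv
    rw [nx_new (not_mem_sn 1), if_pos rfl, htp, ct_one hm]
    have h3 : (Sym.sym (Wk.raw a')).rewrite (.a .blk) = .sym (lay m (1 - 1)) := by
      rw [Nat.sub_self, lay_zero]
      rfl
    rw [h3, tp_update le_rfl le_rfl, sn_insert le_rfl]
  have hB : nx (cv m w .q0 1) (St.V) .b true = cv m w .V 2 := by
    unfold cv
    rw [nx_new (not_mem_sn 1), if_pos rfl, htp]
    have h3 : (Sym.sym (Wk.raw a')).rewrite .b = .sym .b := rfl
    rw [h3, tp_b m w le_rfl, sn_insert le_rfl]
  constructor
  · intro h
    unfold cv at h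
    rw [step_cf] at h
    obtain ⟨_, q, b, d, h1, _, _, rfl⟩ := h
    rw [htp] at h1
    have h2 : (q, b, d) = (St.fb .U, .a .blk, true) ∨ (q, b, d) = (St.fb (.M a'), .a .blk, true) ∨
        (q, b, d) = (St.V, .b, true) := by
      have h4 : (q, b, d) ∈ [((St.fb .U : St m), Wk.a .blk, true),
        ((St.fb (.M a') : St m), Wk.a .blk, true), (.V, .b, true)] := h1
      rw [List.mem_cons, List.mem_cons, List.mem_singleton] at h4
      exact h4
    rcases h2 with h2 | h2 | h2
    · obtain ⟨rfl, h3⟩ := Prod.mk.inj h2
      obtain ⟨rfl, rfl⟩ := Prod.mk.inj h3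
      left
      exact hA _
    · obtain ⟨rfl, h3⟩ := Prod.mk.inj h2
      obtain ⟨rfl, rfl⟩ := Prod.mk.inj h3
      right; left
      exact hA _
    · obtain ⟨rfl, h3⟩ := Prod.mk.inj h2
      obtain ⟨rfl, rfl⟩ := Prod.mk.inj h3
      right; right
      exact hB
  · rintro (rfl | rfl | rfl)
    · rw [← hA]
      unfold cv
      rw [step_cf]
      refine ⟨by omega, _, _, _, ?_, fun _ h => absurd h (not_mem_sn 1), fun _ => le_rfl, rfl⟩
      rw [htp]
      show _ ∈ [((St.fb .U : St m), Wk.a .blk, true),
        ((St.fb (.M a') : St m), Wk.a .blk, true), (.V, .b, true)]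
      simp
    · rw [← hA]
      unfold cv
      rw [step_cf]
      refine ⟨by omega, _, _, _, ?_, fun _ h => absurd h (not_mem_sn 1), fun _ => le_rfl, rfl⟩
      rw [htp]
      show _ ∈ [((St.fb .U : St m), Wk.a .blk, true),
        ((St.fb (.M a') : St m), Wk.a .blk, true), (.V, .b, true)]
      simp
    · rw [← hB]
      unfold cv
      rw [step_cf]
      refine ⟨by omega, _, _, _, ?_, fun _ h => absurd h (not_mem_sn 1), fun _ => le_rfl, rfl⟩
      rw [htp]
      show _ ∈ [((St.fb .U : St m), Wk.a .blk, true),
        ((St.fb (.M a') : St m), Wk.a .blk, true), (.V, .b, true)]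
      simp

theorem get_letter {x : ℕ} (hx : 1 ≤ x) (hxn : x ≤ w.length) : ∃ a, w[x - 1]? = some a :=
  ⟨w[x - 1]'(by omega), List.getElem?_eq_getElem (by omega)⟩

/-- Too late for a mark. -/
theorem dead_V (hm : 1 ≤ m) (t : ℕ) : ∀ x, x + t = w.length + 1 → 1 ≤ x →
    w.length + 1 < x + NN m → DD m strict w.length (cv m w .V x) := by
  induction t with
  | zero =>
    intro x hx _ _
    rw [Nat.add_zero] at hx
    exact dead_rm hx rfl
  | succ t ih =>
    intro x hx hx1 hx2
    obtain ⟨a, ha⟩ := get_letter (w := w) hx1 (by omega)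
    refine Dead.of_succ (not_HA_zero (by omega) (Or.inr rfl)) ?_
    intro y hy
    rw [step_V hx1 (by omega) ha hm] at hy
    rcases hy with rfl | rfl
    · exact dead_short hm hx1 (by omega) a hx2
    · exact ih (x + 1) (by omega) (by omega) (by omega)

/-- The mark is set in the right cell. -/
theorem uniq_V (hm : 1 ≤ m) {a : Bool} (t : ℕ) : ∀ x, x + t + NN m = w.length + 1 → 1 ≤ x →
    w[w.length - NN m]? = some a →
    ∃ c', c'.state = St.ac a ∧ Uniq (RR m strict w.length) (HA m w.length) (cv m w .V x) c' := by
  have hN := NN_ge hm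
  induction t with
  | zero =>
    intro x hx hx1 ha
    obtain ⟨c', h1, h2⟩ := uniq_M (strict := strict) hm hx1 a (w := w) (by omega)
    refine ⟨c', h1, ?_⟩
    have hxa : w[x - 1]? = some a := by
      rw [← ha]
      congr 1
      omega
    refine Dt.uniq ⟨not_HA_zero (by omega) (Or.inr rfl), ?_, ?_⟩ h2
    · rw [step_V hx1 (by omega) hxa hm]
      left; rfl
    · intro z hz
      rw [step_V hx1 (by omega) hxa hm] at hz
      rcases hz with rfl | rfl
      · left; rfl
      · right
        exact dead_V hm (w.length - x) (x + 1) (by omega) (by omega) (by omega)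
  | succ t ih =>
    intro x hx hx1 ha
    obtain ⟨c', h1, h2⟩ := ih (x + 1) (by omega) (by omega) ha
    refine ⟨c', h1, ?_⟩
    obtain ⟨b, hb⟩ := get_letter (w := w) hx1 (by omega)
    refine Dt.uniq ⟨not_HA_zero (by omega) (Or.inr rfl), ?_, ?_⟩ h2
    · rw [step_V hx1 (by omega) hb hm]
      right; rfl
    · intro z hz
      rw [step_V hx1 (by omega) hb hm] at hz
      rcases hz with rfl | rfl
      · right
        exact dead_long hm hx1 _ (by omega)
      · left; rfl

theorem init_eq (m : ℕ) (w : List Bool) : init (Mc m) w = cv m w .q0 1 := by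
  unfold init cv cf
  congr 1
  · funext x
    unfold tp
    by_cases h0 : x = 0
    · rw [if_pos h0, h0]
      rfl
    · rw [if_neg h0, if_neg (by omega)]
  · ext x
    simp only [sn, Set.mem_empty_iff_false, Set.mem_setOf_eq, false_iff]
    omega

/-- The letter with distance `NN m` from the end. -/
def good (m : ℕ) (w : List Bool) : Prop := NN m ≤ w.length ∧ w[w.length - NN m]? = some true

theorem machine_uniq (hm : 1 ≤ m) (w : List Bool) : ∃ b c', (b = true ↔ good m w) ∧
    c'.state = St.ac b ∧ Uniq (RR m strict w.length) (HA m w.length) (init (Mc m) w) c' := by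
  have hN := NN_ge hm
  rw [init_eq]
  by_cases hw : w.length = 0
  · refine ⟨false, cf (.ac false) (w.length + 2) (tp m w 1 1) (sn (1 + 1)), ?_, rfl, ?_⟩
    · constructor
      · intro h
        exact absurd h Bool.false_ne_true
      · intro h
        have := h.1
        omega
    · have hstep := dt_rm (strict := strict) (m := m) (o := 1) (w := w) (P := 1) (by omega)
        (s := .q0) (q := .ac false) (b := .b) (d := true) rfl
      rw [if_pos rfl] at hstep
      have h2 : 1 + 1 = w.length + 2 := by omega
      unfold cv
      apply hstep.uniq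
      rw [h2]
      exact uniq_end
  · have hw1 : 1 ≤ w.length := by omega
    obtain ⟨a0, ha0⟩ := get_letter (w := w) (x := 1) le_rfl hw1
    by_cases hlen : w.length < NN m
    · obtain ⟨c', h1, h2⟩ := uniq_U (strict := strict) hm hlen hw1
      refine ⟨false, c', ?_, h1, ?_⟩
      · constructor
        · intro h
          exact absurd h Bool.false_ne_true
        · intro h
          have := h.1
          omega
      · refine Dt.uniq ⟨not_HA_zero (by omega) (Or.inl rfl), ?_, ?_⟩ h2
        · rw [step_q0 hw1 ha0 hm]
          left; rfl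
        · intro z hz
          rw [step_q0 hw1 ha0 hm] at hz
          rcases hz with rfl | rfl | rfl
          · left; rfl
          · right
            exact dead_short hm le_rfl hw1 _ (by omega)
          · right
            exact dead_V hm (w.length - 1) 2 (by omega) (by omega) (by omega)
    · obtain ⟨a, ha⟩ := get_letter (w := w) (x := w.length - NN m + 1) (by omega) (by omega)
      rw [Nat.add_sub_cancel] at ha
      have hgood : a = true ↔ good m w := by
        unfold good
        rw [ha]
        constructor
        · rintro rfl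
          exact ⟨by omega, rfl⟩
        · rintro ⟨_, h⟩
          injection h
      have hU : DD m strict w.length (ct m w .U 1 1) := by
        rcases Nat.lt_or_ge (NN m) w.length with h | h
        · exact dead_long hm le_rfl _ (by omega)
        · exact dead_U_end hm le_rfl (by omega)
      rcases Nat.lt_or_ge (NN m) w.length with h | h
      · obtain ⟨c', h1, h2⟩ := uniq_V (strict := strict) hm (w := w) (w.length - NN m - 1) 2
          (by omega) (by omega) ha
        refine ⟨a, c', hgood, h1, ?_⟩
        refine Dt.uniq ⟨not_HA_zero (by omega) (Or.inl rfl), ?_, ?_⟩ h2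
        · rw [step_q0 hw1 ha0 hm]
          right; right; rfl
        · intro z hz
          rw [step_q0 hw1 ha0 hm] at hz
          rcases hz with rfl | rfl | rfl
          · right; exact hU
          · right
            exact dead_long hm le_rfl _ (by omega)
          · left; rfl
      · have hwN : w.length = NN m := by omega
        have haa : a0 = a := by
          rw [show w.length - NN m = 0 by omega] at ha
          have h3 : w[0]? = some a0 := ha0
          rw [ha] at h3
          injection h3 with h3
          exact h3.symm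
        subst haa
        obtain ⟨c', h1, h2⟩ := uniq_M (strict := strict) hm (o := 1) le_rfl a0 (w := w) (by omega)
        refine ⟨a0, c', hgood, h1, ?_⟩
        refine Dt.uniq ⟨not_HA_zero (by omega) (Or.inl rfl), ?_, ?_⟩ h2
        · rw [step_q0 hw1 ha0 hm]
          right; left; rfl
        · intro z hz
          rw [step_q0 hw1 ha0 hm] at hz
          rcases hz with rfl | rfl | rfl
          · right; exact hU
          · left; rfl
          · right
            exact dead_V hm (w.length - 1) 2 (by omega) (by omega) (by omega)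

theorem tr_mono {X : Type} {R : X → X → Prop} {H H' : X → Prop} (h : ∀ x, H x → H' x) {x y : X}
    {l : List X} (ht : Tr R H x l y) : Tr R H' x l y := by
  induction ht with
  | halt x hx => exact Tr.halt x (h x hx)
  | step x y l z h1 _ ih => exact Tr.step x y l z h1 ih

theorem tr_end {X : Type} {R : X → X → Prop} {H H' : X → Prop} {x y : X}
    {l : List X} (ht : Tr R H x l y) (h : H' y) : Tr R H' x l y := by
  induction ht with
  | halt x hx => exact Tr.halt x h
  | step x y l z h1 _ ih => exact Tr.step x y l z h1 (ih h)

theorem tr_of_star {X : Type} {R : X → X → Prop} {H : X → Prop} {x y : X}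
    (h : ReflTransGen R x y) (hy : H y) : ∃ l, Tr R H x l y := by
  induction h using ReflTransGen.head_induction_on with
  | refl => exact ⟨[], Tr.halt _ hy⟩
  | head g _ ih =>
    obtain ⟨l', hl'⟩ := ih
    exact ⟨_, Tr.step _ _ _ _ g hl'⟩

theorem tr_H {X : Type} {R : X → X → Prop} {H : X → Prop} {x y : X} {l : List X}
    (h : Tr R H x l y) : H y := by
  induction h with
  | halt x h => exact h
  | step _ _ _ _ _ _ ih => exact ih

/-- The unique answer; nothing unexpected is ever written. -/
theorem machine_ans (hm : 1 ≤ m) (w : List Bool) :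
    (∃ b c', (b = true ↔ good m w) ∧ c'.state = St.ac b ∧
      Uniq (RR m strict w.length) (HB m w.length) (init (Mc m) w) c') ∧
    ∀ c, ReflTransGen (RR m strict w.length) (init (Mc m) w) c → ¬ Bad m w.length c := by
  obtain ⟨b, c', h1, h2, l, h3, h4⟩ := machine_uniq (strict := strict) hm w
  have hH := tr_H h3
  have hB : HB m w.length c' := by
    rcases hH with h | h
    · exact h
    · exfalso
      obtain ⟨_, _, _, _, t, ht, _⟩ := h
      rw [h2] at ht
      exact absurd ht List.not_mem_nil
  refine ⟨⟨b, c', h1, h2, l, tr_end h3 hB, fun l' y' ht => h4 l' y' (tr_mono (fun _ => Or.inl) ht)⟩,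
    ?_⟩
  intro c hc hbad
  obtain ⟨l', hl'⟩ := tr_of_star (H := HA m w.length) hc (Or.inr hbad)
  have e := (h4 _ _ hl').2
  rw [e] at hbad
  have h5 : c'.pos ≤ w.length := hbad.1
  have h6 := hB.1
  omega

theorem HB_iff {n : ℕ} (c : Cfg (Mc m)) : HB m n c ↔ c.pos = n + 2 ∧
    c.state ∈ (Mc m).F ∪ ({St.ac false} : Set (St m)) := by
  have hF : (Mc m).F = ({St.ac true} : Set (St m)) := rfl
  rw [hF]
  unfold HB
  constructor
  · rintro ⟨h, b, hb⟩
    refine ⟨h, ?_⟩
    rw [hb]
    cases b
    · right; rfl
    · left; rfl
  · rintro ⟨h, hb | hb⟩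
    · exact ⟨h, true, hb⟩
    · exact ⟨h, false, hb⟩

theorem Mc_usv (hm : 1 ≤ m) : UnambSelfVer strict (Mc m) := by
  refine ⟨({St.ac false} : Set (St m)), ?_, fun w => ?_⟩
  · rw [Set.disjoint_left]
    intro x hx hx'
    have h1 : x = St.ac true := hx
    have h2 : x = St.ac false := hx'
    rw [h1] at h2
    cases h2
  · obtain ⟨⟨b, c', h1, h2, h3⟩, _⟩ := machine_ans (strict := strict) hm w
    constructor
    · obtain ⟨l, h4, _⟩ := h3
      obtain ⟨f, g1, g2, g3, g4⟩ := fun_of_tr h4
      rw [← g3, HB_iff] at g4
      exact ⟨l.length, f, ⟨g1, g2⟩, g4.1, g4.2⟩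
    · intro T T' f f' h h'
      exact eq_of_uniq h3 h.start h'.start h.step h'.step ((HB_iff _).2 ⟨h.last, h.final⟩)
        ((HB_iff _).2 ⟨h'.last, h'.final⟩)

theorem Mc_language (hm : 1 ≤ m) (w : List Bool) : w ∈ (Mc m).language strict ↔ good m w := by
  obtain ⟨⟨b, c', h1, h2, l, h3, h4⟩, _⟩ := machine_ans (strict := strict) hm w
  rw [← h1]
  constructor
  · rintro ⟨c, hc, hp, hF⟩
    have hF' : c.state = St.ac true := hF
    obtain ⟨l', hl'⟩ := tr_of_star (H := HB m w.length) hc ⟨hp, true, hF'⟩
    have e := (h4 _ _ hl').2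
    rw [e, h2] at hF'
    injection hF'
  · intro hb
    have key : ∀ x l y, Tr (Step strict w.length) (HB m w.length) x l y →
        ReflTransGen (Step strict w.length) x y ∧ HB m w.length y := by
      intro x l y h
      induction h with
      | halt x h => exact ⟨ReflTransGen.refl, h⟩
      | step x y l z g _ ih => exact ⟨ReflTransGen.head g ih.1, ih.2⟩
    obtain ⟨g1, g2, _⟩ := key _ _ _ h3
    refine ⟨c', g1, g2, ?_⟩
    rw [h2, hb]
    rfl

/-! ### One guess -/

/-- The rank of a state: has the machine decided from where it counts? -/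
def rkm : St m → ℕ
  | .q0 => 0
  | .V => 0
  | _ => 1

theorem rkm_le (q : St m) : rkm q ≤ 1 := by
  cases q <;> simp [rkm]

theorem rkm_zero {q : St m} (h : rkm q = 0) : q = .q0 ∨ q = .V := by
  cases q <;> simp [rkm] at h ⊢

theorem rkm_mono (s : St m) (σ : Sym Wk) (t : St m × Wk × Bool) (h : t ∈ ntr s σ) :
    rkm s ≤ rkm t.1 := by
  by_cases hs : rkm s = 0
  · omega
  · have h1 : rkm s = 1 := by have := rkm_le s; omega
    rw [h1]
    have hrej : ∀ μ, t ∈ rej m μ → 1 ≤ rkm t.1 := by
      intro μ hμ
      cases μ with
      | U =>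
        have h3 : t = (.ac false, .b, true) := List.mem_singleton.1 hμ
        rw [h3]
        exact le_rfl
      | M x => exact absurd hμ List.not_mem_nil
    have hfin : ∀ μ f c (i : Fin (m + 1)), 1 ≤ rkm (fin μ f c i) := by
      intro μ f c i
      unfold fin
      split_ifs <;> exact le_rfl
    have hst1 : ∀ μ c k, 1 ≤ rkm (st1 (m := m) μ c k).1 := by
      intro μ c k
      cases k <;> exact le_rfl
    have key : ∀ L : List (St m × Wk × Bool), t ∈ L → (∀ u ∈ L, 1 ≤ rkm u.1) → 1 ≤ rkm t.1 :=
      fun L h1 h2 => h2 t h1
    cases s with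
    | q0 => exact absurd rfl hs
    | V => exact absurd rfl hs
    | ac x => exact absurd h List.not_mem_nil
    | arr μ f c k =>
      rcases σ with _ | _ | ⟨_ | ⟨_ | _ | _⟩ | _ | _⟩
      · exact absurd h List.not_mem_nil
      · exact hrej μ h
      · have h' : t ∈ (if f = true then [((.fb μ : St m), Wk.a k, true)] else [st1 μ c k]) := h
        split_ifs at h'
        · rw [List.mem_singleton] at h'
          rw [h']
          exact le_rfl
        · rw [List.mem_singleton] at h'
          rw [h']
          exact hst1 μ c k
      all_goals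
        have h' := List.mem_singleton.1 h
        rw [h']
        exact le_rfl
    | fb μ =>
      rcases σ with _ | _ | ⟨_ | ⟨_ | _ | _⟩ | _ | _⟩
      all_goals first
        | exact hrej μ h
        | exact absurd h List.not_mem_nil
        | (have h' := List.mem_singleton.1 h; rw [h']; exact le_rfl)
    | fd μ =>
      rcases σ with _ | _ | ⟨_ | ⟨_ | _ | _⟩ | _ | _⟩
      all_goals first
        | exact hrej μ h
        | exact absurd h List.not_mem_nil
        | (have h' := List.mem_singleton.1 h; rw [h']; exact le_rfl)
    | ta μ c i =>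
      rcases σ with _ | _ | ⟨_ | ⟨_ | _ | _⟩ | _ | _⟩
      all_goals first
        | exact absurd h List.not_mem_nil
        | (have h' := List.mem_singleton.1 h; rw [h']; exact le_rfl)
    | tb μ c i =>
      rcases σ with _ | _ | ⟨_ | ⟨_ | _ | _⟩ | _ | _⟩
      all_goals first
        | exact absurd h List.not_mem_nil
        | (have h' := List.mem_singleton.1 h; rw [h']; exact le_rfl)
        | (have h' : t ∈ (if i.val = 0 then [((.td μ c (fn m 0) : St m), Wk.a .blk, true)]
            else [(.tc μ c i, .a .blk, true)]) := h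
           split_ifs at h' <;> (rw [List.mem_singleton] at h'; rw [h']; exact le_rfl))
    | tc μ c i =>
      rcases σ with _ | _ | ⟨_ | ⟨_ | _ | _⟩ | _ | _⟩
      all_goals first
        | exact absurd h List.not_mem_nil
        | (have h' := List.mem_singleton.1 h; rw [h']; exact le_rfl)
        | (have h' : t ∈ (if i.val = 1 then [((.td μ c (fn m 0) : St m), Wk.a .row, true)]
            else [(.tc μ c (dec i), .a .row, true)]) := h
           split_ifs at h' <;> (rw [List.mem_singleton] at h'; rw [h']; exact le_rfl))
    | td μ c i =>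
      rcases σ with _ | _ | ⟨_ | ⟨_ | _ | _⟩ | _ | x⟩
      all_goals first
        | exact absurd h List.not_mem_nil
        | (have h' := List.mem_singleton.1 h; rw [h']; exact le_rfl)
        | (have h' : t ∈ [((.te μ c x i : St m), Wk.d x, true), (.td μ c (inc i), .d x, true)] := h
           rw [List.mem_cons, List.mem_singleton] at h'
           rcases h' with h' | h' <;> (rw [h']; exact le_rfl))
    | te μ c x i =>
      rcases σ with _ | _ | ⟨_ | ⟨_ | _ | _⟩ | _ | _⟩
      all_goals first
        | exact absurd h List.not_mem_nil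
        | (have h' := List.mem_singleton.1 h; rw [h']; exact le_rfl)
        | (cases μ with
           | U => (have h' := List.mem_singleton.1 h; rw [h']; exact le_rfl)
           | M z => exact absurd h List.not_mem_nil)
    | ua μ c x i =>
      rcases σ with _ | _ | ⟨_ | ⟨_ | _ | _⟩ | _ | y⟩
      all_goals first
        | exact absurd h List.not_mem_nil
        | (have h' := List.mem_singleton.1 h; rw [h']; exact le_rfl)
        | (have h' : t ∈ (if i.val = 0 then [((.ub μ c x : St m), Wk.a .row, true)] else []) := h
           split_ifs at h'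
           · rw [List.mem_singleton] at h'
             rw [h']
             exact le_rfl
           · exact absurd h' List.not_mem_nil)
        | (have h' : t ∈ (if i.val = 0 then [((.ub μ c x : St m), Wk.a .blk, true)] else []) := h
           split_ifs at h'
           · rw [List.mem_singleton] at h'
             rw [h']
             exact le_rfl
           · exact absurd h' List.not_mem_nil)
        | (have h' : t ∈ (if i.val = 0 then [] else
              [((.ua μ c x (dec i) : St m), Wk.d y, false)]) := h
           split_ifs at h'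
           · exact absurd h' List.not_mem_nil
           · rw [List.mem_singleton] at h'
             rw [h']
             exact le_rfl)
    | ub μ c x =>
      rcases σ with _ | _ | ⟨_ | ⟨_ | _ | _⟩ | _ | _⟩
      all_goals first
        | exact hrej μ h
        | exact absurd h List.not_mem_nil
        | (have h' := List.mem_singleton.1 h; rw [h']; exact le_rfl)
    | va μ f c i =>
      rcases σ with _ | _ | ⟨_ | ⟨_ | _ | _⟩ | _ | _⟩
      all_goals first
        | exact absurd h List.not_mem_nil
        | (have h' := List.mem_singleton.1 h; rw [h']; exact le_rfl)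
        | (have h' : t ∈ (if i.val = m then [((.vb μ f c (fn m 1) : St m), Wk.a .row, false)]
            else [(.arr μ f c .mid, .a .row, true)]) := h
           split_ifs at h' <;> (rw [List.mem_singleton] at h'; rw [h']; exact le_rfl))
        | (have h' : t ∈ (if i.val = m then [((fin μ f c (fn m 1) : St m), Wk.a .blk, true)]
            else [(.arr μ f c .mid, .a .blk, true)]) := h
           split_ifs at h'
           · rw [List.mem_singleton] at h'
             rw [h']
             exact hfin _ _ _ _
           · rw [List.mem_singleton] at h'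
             rw [h']
             exact le_rfl)
    | vb μ f c i =>
      rcases σ with _ | _ | ⟨_ | ⟨_ | _ | _⟩ | _ | _⟩
      all_goals first
        | exact absurd h List.not_mem_nil
        | (have h' := List.mem_singleton.1 h; rw [h']; exact le_rfl)
        | (have h' := List.mem_singleton.1 h; rw [h']; exact hfin _ _ _ _)
    | wr μ =>
      rcases σ with _ | _ | ⟨_ | ⟨_ | _ | _⟩ | _ | _⟩
      all_goals first
        | exact absurd h List.not_mem_nil
        | (have h' := List.mem_singleton.1 h; rw [h']; exact le_rfl)
        | (cases μ with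
           | U => exact absurd h List.not_mem_nil
           | M z => (have h' := List.mem_singleton.1 h; rw [h']; exact le_rfl))

theorem ntr_zero {s : St m} (hs : s = .q0 ∨ s = .V) {σ : Sym Wk} {t : St m × Wk × Bool}
    (h : t ∈ ntr s σ) (ht : rkm t.1 = 0) : t.2.1 = .b := by
  rcases hs with rfl | rfl
  · rcases σ with _ | _ | ⟨x | ⟨_ | _ | _⟩ | _ | _⟩
    all_goals first
      | exact absurd h List.not_mem_nil
      | (have h' := List.mem_singleton.1 h; rw [h'])
      | skip
    have h' : t ∈ [((.fb .U : St m), Wk.a .blk, true), (.fb (.M x), .a .blk, true),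
      (.V, .b, true)] := h
    rw [List.mem_cons, List.mem_cons, List.mem_singleton] at h'
    rcases h' with h' | h' | h'
    · rw [h'] at ht
      exact absurd ht (by simp [rkm])
    · rw [h'] at ht
      exact absurd ht (by simp [rkm])
    · rw [h']
  · rcases σ with _ | _ | ⟨x | ⟨_ | _ | _⟩ | _ | _⟩
    all_goals first
      | exact absurd h List.not_mem_nil
      | skip
    have h' : t ∈ [((.fb (.M x) : St m), Wk.a .blk, true), (.V, .b, true)] := h
    rw [List.mem_cons, List.mem_singleton] at h'
    rcases h' with h' | h'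
    · rw [h'] at ht
      exact absurd ht (by simp [rkm])
    · rw [h']

/-- The machine makes at most one guess what to write. -/
theorem Mc_nochoice (hm : 1 ≤ m) (w : List Bool) (c c' : Cfg (Mc m))
    (h1 : ReflTransGen (Step strict w.length) (init (Mc m) w) c)
    (h2 : ReflTransGen (Step strict w.length) (init (Mc m) w) c')
    (h4 : c.pos ≤ w.length) (h5 : c'.pos = c.pos) (h6 : c.pos ∉ c.seen)
    (h7 : c'.pos ∉ c'.seen) (h8 : c'.tape = c.tape) (h9 : rkm c'.state = rkm c.state)
    (q : St m) (b : Wk) (d : Bool) (q' : St m) (b' : Wk) (d' : Bool)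
    (h10 : (q, b, d) ∈ ntr c.state (c.tape c.pos))
    (h11 : (q', b', d') ∈ ntr c'.state (c.tape c.pos)) (h12 : rkm q = rkm c.state)
    (h13 : rkm q' = rkm c.state) : b = b' := by
  obtain ⟨_, hb⟩ := machine_ans (strict := strict) hm w
  by_cases hz : rkm c.state = 0
  · have e1 := ntr_zero (rkm_zero hz) h10 (by rw [← hz]; exact h12)
    have e2 := ntr_zero (rkm_zero (h9.trans hz)) h11 (by rw [← hz]; exact h13)
    simp only at e1 e2
    rw [e1, e2]
  · have g1 := hb c h1
    have g2 := hb c' h2
    have hq : ∀ s : St m, rkm s ≠ 0 → s ≠ .q0 ∧ s ≠ .V := by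
      intro s hs
      constructor
      · rintro rfl
        exact hs rfl
      · rintro rfl
        exact hs rfl
    have e1 : b = lay m (c.pos - org c.tape) := by
      by_contra hne
      exact g1 ⟨h4, h6, (hq _ hz).1, (hq _ hz).2, _, h10, hne⟩
    have e2 : b' = lay m (c'.pos - org c'.tape) := by
      by_contra hne
      refine g2 ⟨by omega, h7, (hq _ (by rw [h9]; exact hz)).1, (hq _ (by rw [h9]; exact hz)).2,
        (q', b', d'), ?_, hne⟩
      rw [h8, h5]
      exact h11
    rw [e1, e2, h5, h8]

end Pool.Agent.H720.CT
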