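import Mathlib
import Pool.Agent.H720.CT.Top
import Pool.Agent.H720.UV.Main
import Pool.Graph.R_seed8.H630R2.LA.Nerode
import Pool.Graph.R_seed8.TH705.LB.Lower
import Pool.Graph.R_seed8.Y527.LA.NoCh
import Pool.Graph.R_seed8.Y527.LA.OneWay
import Pool.Graph.R_pool_sql_team_seeded_3dad9d7b.NH88.FY.Cost

set_option autoImplicit false
set_option exponentiation.threshold 10000000000

/-!
Size of the machine, and lower bounds for equivalent machines.
-/

namespace Pool.Agent.H720.CT

open Relation Pool.Agent.H630R2.LA Pool.Agent.H720.UV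

variable {m : ℕ} {strict : Prop}

theorem numTrans_Mc (m : ℕ) : (Mc m).numTrans ≤ Nat.card (St m) * 10 * 3 := by
  have h0 : Finite (Sym Wk) := finite_Sym Wk
  let f : St m × Sym Wk × Fin 3 → St m × Sym Wk × St m × Wk × Bool := fun t =>
    (t.1, t.2.1, ((ntr t.1 t.2.1)[t.2.2.val]?).getD (.q0, .b, false))
  have hmem : ∀ (q : St m) (σ : Sym Wk) (t : St m × Wk × Bool), t ∈ ntr q σ →
      (q, σ, t) ∈ f '' Set.univ := by
    intro q σ t ht'
    obtain ⟨i, hi, hit⟩ := List.mem_iff_getElem.1 ht'
    have h3 := ntr_length q σ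
    refine ⟨(q, σ, ⟨i, by omega⟩), trivial, ?_⟩
    show (q, σ, ((ntr q σ)[i]?).getD (.q0, .b, false)) = (q, σ, t)
    rw [List.getElem?_eq_getElem hi, Option.getD_some, hit]
  have h1 : {t : (Mc m).Q × Sym (Mc m).W × (Mc m).Q × (Mc m).W × Bool |
      t.2.2 ∈ (Mc m).δ t.1 t.2.1} ⊆ f '' Set.univ := fun t ht => hmem t.1 t.2.1 t.2.2 ht
  have hfin : (f '' Set.univ).Finite := Set.finite_univ.image f
  have h2 : (Mc m).numTrans ≤ (f '' Set.univ).ncard := Set.ncard_le_ncard h1 hfin
  have h3 : (f '' Set.univ).ncard ≤ (Set.univ : Set (St m × Sym Wk × Fin 3)).ncard :=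
    Set.ncard_image_le Set.finite_univ
  rw [Set.ncard_univ, Nat.card_prod, Nat.card_prod, card_Sym] at h3
  have h4 : Nat.card (Fin 3) = 3 := by simp
  rw [h4] at h3
  have h5 := card_Wk
  calc (Mc m).numTrans ≤ Nat.card (St m) * ((Nat.card Wk + 2) * 3) := h2.trans h3
    _ ≤ Nat.card (St m) * (10 * 3) := Nat.mul_le_mul_left _ (by omega)
    _ = Nat.card (St m) * 10 * 3 := by ring

theorem size_Mc (hm : 1 ≤ m) : (Mc m).size ≤ 16000 * (m + 1) := by
  have h1 := numTrans_Mc m
  have h2 := card_St (m := m)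
  have h3 := card_Wk
  have h4 : (Mc m).size = Nat.card (St m) + Nat.card Bool + (Nat.card Wk + 2) +
      5 * (Mc m).numTrans + 1 + ({St.ac true} : Set (St m)).ncard := rfl
  rw [h4, Set.ncard_singleton]
  have h5 : Nat.card Bool = 2 := by simp
  rw [h5]
  omega

theorem NN_big (hm : 1 ≤ m) : 2 ^ (m ^ 2) ≤ NN m := by
  unfold NN
  have h1 : m ^ 2 = m * m := by ring
  rw [h1]
  have h2 : 1 * (2 ^ (m * m) + 1) ≤ m * m * (2 ^ (m * m) + 1) := Nat.mul_le_mul_right _ (mm_pos hm)
  omega

open Classical in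
/-- The word which codes a set. -/
noncomputable def uw (m : ℕ) (G : Set (Fin (NN m))) : List Bool :=
  List.ofFn (fun i => decide (i ∈ G))

theorem uw_length (G : Set (Fin (NN m))) : (uw m G).length = NN m := by
  unfold uw
  rw [List.length_ofFn]

theorem good_uw (G : Set (Fin (NN m))) (i : Fin (NN m)) :
    good m (uw m G ++ List.replicate i.val false) ↔ i ∈ G := by
  classical
  unfold good
  rw [List.length_append, List.length_replicate, uw_length, Nat.add_sub_cancel_left,
    List.getElem?_append_left (by rw [uw_length]; exact i.isLt)]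
  unfold uw
  rw [List.getElem?_ofFn]
  rw [dif_pos i.isLt]
  simp

theorem dist_uw {G G' : Set (Fin (NN m))} (h : G ≠ G') :
    ∃ z, ¬ (good m (uw m G ++ z) ↔ good m (uw m G' ++ z)) := by
  by_contra hcon
  apply h
  ext i
  have h1 : ∀ z, good m (uw m G ++ z) ↔ good m (uw m G' ++ z) := by
    intro z
    by_contra hz
    exact hcon ⟨z, hz⟩
  rw [← good_uw G i, ← good_uw G' i]
  exact h1 _

/-- Deterministic 1-limited automata. -/
theorem det_lower (hm : 1 ≤ m) {M : LimAut Bool} (hd : M.Deterministic)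
    (hL : ∀ w, w ∈ M.language strict ↔ good m w) :
    2 ^ (m ^ 2) ≤ Nat.card M.Q * Nat.card M.Q + Nat.card M.Q := by
  have h := card_le_of_distinguished (strict := strict) hd (uw m) (by
    intro G G' hne
    obtain ⟨z, hz⟩ := dist_uw hne
    exact ⟨z, by rw [hL, hL]; exact hz⟩)
  rw [Nat.card_eq_fintype_card (α := Fin (NN m)), Fintype.card_fin] at h
  exact (NN_big hm).trans h

/-- One-way deterministic finite automata. -/
theorem dfa_lower (hm : 1 ≤ m) {S : Type} [Finite S] {N : DFA Bool S}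
    (hL : ∀ w, w ∈ N.accepts ↔ good m w) : 2 ^ (2 ^ (m ^ 2)) ≤ Nat.card S := by
  have hinj : Function.Injective (fun G : Set (Fin (NN m)) => N.eval (uw m G)) := by
    intro G G' h
    by_contra hne
    obtain ⟨z, hz⟩ := dist_uw hne
    apply hz
    rw [← hL, ← hL, DFA.mem_accepts, DFA.mem_accepts]
    have h1 : ∀ G'' : Set (Fin (NN m)), N.eval (uw m G'' ++ z) = N.evalFrom (N.eval (uw m G'')) z :=
      fun G'' => DFA.evalFrom_of_append _ _ _ _
    have h2 : N.eval (uw m G) = N.eval (uw m G') := h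
    rw [h1, h1, h2]
  have h1 := Nat.card_le_card_of_injective _ hinj
  have h2 : Nat.card (Set (Fin (NN m))) = 2 ^ NN m := by
    rw [Nat.card_eq_fintype_card, Fintype.card_set, Fintype.card_fin]
  rw [h2] at h1
  exact (Nat.pow_le_pow_right (by omega) (NN_big hm)).trans h1

theorem good_one (i j : ℕ) (hi : i < NN m) (hij : i ≤ j) :
    good m ((true :: List.replicate j false) ++ List.replicate (NN m - 1 - i) false) ↔ j = i := by
  unfold good
  have hlen : ((true :: List.replicate j false) ++ List.replicate (NN m - 1 - i) false).length =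
      NN m + (j - i) := by
    rw [List.length_append, List.length_cons, List.length_replicate, List.length_replicate]
    omega
  rw [hlen, Nat.add_sub_cancel_left]
  constructor
  · rintro ⟨_, h⟩
    by_contra hne
    obtain ⟨t, ht⟩ : ∃ t, j - i = t + 1 := ⟨j - i - 1, by omega⟩
    rw [ht, List.cons_append, List.getElem?_cons_succ, List.replicate_append_replicate,
      List.getElem?_replicate] at h
    split_ifs at h
    injection h with h
    exact Bool.false_ne_true h
  · rintro rfl
    refine ⟨by omega, ?_⟩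
    rw [Nat.sub_self]
    rfl

/-- One-way nondeterministic finite automata. -/
theorem nfa_lower (hm : 1 ≤ m) {S : Type} [Finite S] {N : NFA Bool S}
    (hL : ∀ w, w ∈ N.accepts ↔ good m w) : 2 ^ (m ^ 2) ≤ Nat.card S := by
  have hacc : ∀ x y : List Bool, x ++ y ∈ N.accepts ↔
      ∃ s ∈ N.eval x, ∃ t ∈ N.accept, t ∈ N.evalFrom {s} y := by
    intro x y
    rw [NFA.mem_accepts]
    have h1 : N.evalFrom N.start (x ++ y) = N.evalFrom (N.eval x) y := by
      unfold NFA.eval NFA.evalFrom
      rw [List.foldl_append]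
    rw [h1]
    constructor
    · rintro ⟨t, ht, ht'⟩
      rw [NFA.mem_evalFrom_iff_exists] at ht'
      obtain ⟨s, hs, hs'⟩ := ht'
      exact ⟨s, hs, t, ht, hs'⟩
    · rintro ⟨s, hs, t, ht, ht'⟩
      exact ⟨t, ht, NFA.mem_evalFrom_iff_exists.2 ⟨s, hs, ht'⟩⟩
  have hS : ∀ i : Fin (NN m), ∃ s ∈ N.eval (true :: List.replicate i.val false),
      ∃ t ∈ N.accept, t ∈ N.evalFrom {s} (List.replicate (NN m - 1 - i.val) false) := by
    intro i
    rw [← hacc, hL, good_one i.val i.val i.isLt le_rfl]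
  choose s h1 t h2 h3 using hS
  have hone : ∀ i j : Fin (NN m), s i = s j → i.val ≤ j.val → i = j := by
    intro i j hij hle
    have h4 : (true :: List.replicate j.val false) ++ List.replicate (NN m - 1 - i.val) false ∈
        N.accepts := by
      rw [hacc]
      exact ⟨s j, h1 j, t i, h2 i, by rw [← hij]; exact h3 i⟩
    rw [hL, good_one i.val j.val i.isLt hle] at h4
    exact Fin.ext h4.symm
  have hinj : Function.Injective s := by
    intro i j hij
    rcases Nat.le_total i.val j.val with h | h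
    · exact hone i j hij h
    · exact (hone j i hij.symm h).symm
  have h4 := Nat.card_le_card_of_injective _ hinj
  rw [Nat.card_eq_fintype_card (α := Fin (NN m)), Fintype.card_fin] at h4
  exact (NN_big hm).trans h4

/-- 1-limited automata without choice what to write. -/
theorem nc_lower (hm : 1 ≤ m) {M : LimAut Bool} (hd : Pool.Agent.Y527.LA.NoChoice strict M)
    (hL : ∀ w, w ∈ M.language strict ↔ good m w) :
    2 ^ (m ^ 2) ≤ Nat.card M.Q * Nat.card M.Q + Nat.card M.Q := by
  have h := Pool.Agent.Y527.LA.card_le_of_distinguishedS (strict := strict) hd (uw m) (by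
    intro G G' hne
    obtain ⟨z, hz⟩ := dist_uw hne
    exact ⟨z, by rw [hL, hL]; exact hz⟩)
  rw [Nat.card_eq_fintype_card (α := Fin (NN m)), Fintype.card_fin] at h
  exact (NN_big hm).trans h

/-- The sharper bound for deterministic 1-limited automata. -/
theorem det_lower' (hm : 1 ≤ m) {M : LimAut Bool} (hd : M.Deterministic)
    (hL : ∀ w, w ∈ M.language strict ↔ good m w) :
    2 ^ (2 ^ (m ^ 2)) ≤ (Nat.card M.Q + 1) ^ (Nat.card M.Q + 1) := by
  have h := Pool.Agent.Y527.LA.card_le_of_distinguishedD (strict := strict) hd (uw m) (by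
    intro G G' hne
    obtain ⟨z, hz⟩ := dist_uw hne
    exact ⟨z, by rw [hL, hL]; exact hz⟩)
  rw [Nat.card_eq_fintype_card (α := Fin (NN m)), Fintype.card_fin] at h
  exact (Nat.pow_le_pow_right (by omega) (NN_big hm)).trans h

/-- A class of 1-limited automata, for all input alphabets. -/
abbrev Cls : Type 1 := ∀ A : Type, LimAut A → Prop

/-- The cost of the conversion of 1-limited automata in the class `P` to 1-limited automata in the
class `C`: the greatest of the least sizes of the automata in `C` for the languages of the automata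
in `P` of size at most `n`. -/
noncomputable def convCost (strict : Prop) (P C : Cls) (n : ℕ) : ℕ :=
  sSup {s | ∃ (A : Type) (_ : Finite A) (M : LimAut A), P A M ∧ M.size ≤ n ∧
    s = Pool.Agent.NH88.FY.minSize strict (C A) (M.language strict)}

/-- `M` makes at most one guess what to write: the states have the ranks `0` and `1`, no move lowers
the rank, and `M` has no choice what to write as long as it does not raise the rank.  That is: if two
computations on the same input are going to visit the same cell, which contains an input letter, for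
the first time, with the same tape and in states of the same rank, then all their moves that keep the
rank write the same symbol. -/
def OneGuess {A : Type} (strict : Prop) (M : LimAut A) : Prop :=
  ∃ rk : M.Q → ℕ, (∀ q, rk q ≤ 1) ∧ (∀ p σ q b d, (q, b, d) ∈ M.δ p σ → rk p ≤ rk q) ∧
    ∀ (w : List A) (c c' : Cfg M),
      ReflTransGen (Step strict w.length) (init M w) c →
      ReflTransGen (Step strict w.length) (init M w) c' →
      1 ≤ c.pos → c.pos ≤ w.length → c'.pos = c.pos → c.pos ∉ c.seen → c'.pos ∉ c'.seen →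
      c'.tape = c.tape → rk c'.state = rk c.state →
      ∀ q b d q' b' d', (q, b, d) ∈ M.δ c.state (c.tape c.pos) →
        (q', b', d') ∈ M.δ c'.state (c.tape c.pos) → rk q = rk c.state → rk q' = rk c.state → b = b'

theorem Mc_oneGuess (hm : 1 ≤ m) : OneGuess strict (Mc m) :=
  ⟨rkm, rkm_le, fun p σ q b d h => rkm_mono p σ (q, b, d) h,
    fun w c c' h1 h2 _ h4 h5 h6 h7 h8 h9 q b d q' b' d' h10 h11 h12 h13 =>
      Mc_nochoice hm w c c' h1 h2 h4 h5 h6 h7 h8 h9 q b d q' b' d' h10 h11 h12 h13⟩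

/-- The arithmetic of the lower bounds. -/
theorem lower_aux {n m q s C : ℕ} (hm1 : 1 ≤ m) (hm3 : n ≤ 16000 * (m + 2)) (hq : q + 1 ≤ s)
    (h7 : 2 ^ (m ^ 2) ≤ q * q + q) (h9 : s ≤ C) : 2 ^ (n ^ 2) ≤ C ^ 5000000000 := by
  have h10 : q * q + q ≤ s ^ 2 := by
    calc q * q + q ≤ (q + 1) ^ 2 := by nlinarith
      _ ≤ s ^ 2 := Nat.pow_le_pow_left hq 2
  have h11 : 2 ^ (m ^ 2) ≤ C ^ 2 := (h7.trans h10).trans (Nat.pow_le_pow_left h9 2)
  have h12 : n ^ 2 ≤ m ^ 2 * 2500000000 := by
    have h13 : n ^ 2 ≤ (16000 * (m + 2)) ^ 2 := Nat.pow_le_pow_left hm3 2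
    nlinarith
  calc 2 ^ (n ^ 2) ≤ 2 ^ (m ^ 2 * 2500000000) := Nat.pow_le_pow_right (by omega) h12
    _ = (2 ^ (m ^ 2)) ^ 2500000000 := by rw [pow_mul]
    _ ≤ (C ^ 2) ^ 2500000000 := Nat.pow_le_pow_left h11 _
    _ = C ^ 5000000000 := by rw [← pow_mul]

/-- Bounds for the cost of conversions. -/
theorem convCost_bounds (strict : Prop) (P C : Cls) (g : ℕ → ℕ) (hg : Monotone g)
    (h1 : ∀ (A : Type) (M : LimAut A), UnambSelfVer strict M → OneGuess strict M → P A M)
    (h2 : ∀ (A : Type) [Finite A] (M : LimAut A), ∃ M' : LimAut A, C A M' ∧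
      M'.language strict = M.language strict ∧ M'.size ≤ g M.size)
    (h3 : ∀ M : LimAut Bool, C Bool M → ∀ m, 1 ≤ m → (∀ w, w ∈ M.language strict ↔ good m w) →
      2 ^ (m ^ 2) ≤ Nat.card M.Q * Nat.card M.Q + Nat.card M.Q) (n : ℕ) :
    convCost strict P C n ≤ g n ∧
      (32000 ≤ n → 2 ^ (n ^ 2) ≤ convCost strict P C n ^ 5000000000) := by
  have hb : ∀ s ∈ {s | ∃ (A : Type) (_ : Finite A) (M : LimAut A), P A M ∧ M.size ≤ n ∧
      s = Pool.Agent.NH88.FY.minSize strict (C A) (M.language strict)}, s ≤ g n := by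
    rintro s ⟨A, _, M, _, hM, rfl⟩
    obtain ⟨M', g1, g2, g3⟩ := h2 A M
    have h4 : Pool.Agent.NH88.FY.minSize strict (C A) (M.language strict) ≤ M'.size :=
      Nat.sInf_le (s := {s | ∃ M₁ : LimAut A, C A M₁ ∧ M₁.language strict = M.language strict ∧
        M₁.size = s}) ⟨M', g1, g2, rfl⟩
    exact h4.trans (g3.trans (hg hM))
  refine ⟨csSup_le' hb, fun hn => ?_⟩
  obtain ⟨m, hm1, hm2, hm3⟩ : ∃ m, 1 ≤ m ∧ 16000 * (m + 1) ≤ n ∧ n ≤ 16000 * (m + 2) := by
    refine ⟨n / 16000 - 1, ?_, ?_, ?_⟩ <;> omega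
  obtain ⟨M', h4, h5, h6⟩ := Nat.sInf_mem (s := {s | ∃ M : LimAut Bool, C Bool M ∧
      M.language strict = (Mc m).language strict ∧ M.size = s}) (by
    obtain ⟨M', g1, g2, _⟩ := h2 Bool (Mc m)
    exact ⟨_, M', g1, g2, rfl⟩)
  have h7 := h3 M' h4 m hm1 (fun w => by rw [h5]; exact Mc_language hm1 w)
  have h8 : M'.size = Pool.Agent.NH88.FY.minSize strict (C Bool) ((Mc m).language strict) := h6
  have h9 : Pool.Agent.NH88.FY.minSize strict (C Bool) ((Mc m).language strict) ≤
      convCost strict P C n :=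
    le_csSup ⟨_, hb⟩ ⟨Bool, inferInstance, Mc m, h1 _ _ (Mc_usv hm1) (Mc_oneGuess hm1),
      (size_Mc hm1).trans hm2, rfl⟩
  have hq : Nat.card M'.Q + 1 ≤ M'.size := by
    unfold LimAut.size
    omega
  exact lower_aux hm1 hm3 hq h7 (by rw [h8]; exact h9)

open Filter Asymptotics in
theorem theta_of_bounds' (g : ℕ → ℕ) (h1 : ∀ n, g n ≤ 2 ^ (2 * n ^ 2))
    (h2 : ∀ n, 32000 ≤ n → 2 ^ (n ^ 2) ≤ g n ^ 5000000000) :
    (fun n : ℕ => Real.log (g n)) =Θ[atTop] fun n : ℕ => (n : ℝ) ^ 2 := by
  have hl2 : 0 < Real.log 2 := Real.log_pos (by norm_num)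
  constructor
  · refine IsBigO.of_bound (2 * Real.log 2) (Eventually.of_forall fun n => ?_)
    rw [Real.norm_of_nonneg (Real.log_natCast_nonneg _), Real.norm_of_nonneg (by positivity)]
    rcases Nat.eq_zero_or_pos (g n) with h0 | h0
    · rw [h0, Nat.cast_zero, Real.log_zero]
      positivity
    · have h3 : Real.log (g n) ≤ Real.log ((2 : ℝ) ^ (2 * n ^ 2)) := by
        apply Real.log_le_log (by exact_mod_cast h0)
        exact_mod_cast h1 n
      rw [Real.log_pow] at h3
      push_cast at h3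
      nlinarith
  · refine IsBigO.of_bound (5000000000 / Real.log 2) ?_
    filter_upwards [eventually_ge_atTop 32000] with n hn
    rw [Real.norm_of_nonneg (Real.log_natCast_nonneg _), Real.norm_of_nonneg (by positivity)]
    have h3 : Real.log ((2 : ℝ) ^ (n ^ 2)) ≤ Real.log ((g n : ℝ) ^ 5000000000) := by
      apply Real.log_le_log (by positivity)
      exact_mod_cast h2 n hn
    rw [Real.log_pow, Real.log_pow] at h3
    push_cast at h3
    rw [div_mul_eq_mul_div, le_div_iff₀ hl2]
    linarith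

end Pool.Agent.H720.CT
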